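import Pool.Agent.Helper64.Btw.Sharp

/-!
# Turán's construction: covering, and the number of collinear triples
-/

set_option autoImplicit false
open Finset
open scoped Classical

namespace Pool.Agent.Helper64.Btw

/-- the residue class `i` mod 3 -/
noncomputable def cls (n i : ℕ) : Finset (Fin n) := univ.filter fun x : Fin n => cl x = i % 3

theorem card_cls (n i : ℕ) : (cls n i).card = n / 3 + if i % 3 < n % 3 then 1 else 0 := by
  have h1 : (cls n i).card = Nat.count (fun x => x % 3 = i % 3) n := by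
    rw [Nat.count_eq_card_filter_range]
    refine card_bij (fun x _ => (x : ℕ)) ?_ ?_ ?_
    · intro x hx
      exact mem_filter.2 ⟨mem_range.2 x.2, (mem_filter.1 hx).2⟩
    · intro x _ y _ h
      exact Fin.ext h
    · intro b hb
      exact ⟨⟨b, mem_range.1 (mem_filter.1 hb).1⟩, mem_filter.2 ⟨mem_univ _, (mem_filter.1 hb).2⟩,
        rfl⟩
  rw [h1]
  exact Nat.count_modEq_card n (r := 3) (by norm_num) i

theorem choose_bound (n : ℕ) : ∑ i ∈ range 3, ((cls n i).card.choose 3 +
    (cls n i).card * (cls n (i + 1)).card.choose 2) = turan n := by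
  obtain ⟨s, r, hr, hs⟩ : ∃ s r, r < 3 ∧ n = 3 * s + r := ⟨n / 3, n % 3, by omega, by omega⟩
  have h1 : n / 3 = s := by omega
  have h2 : n % 3 = r := by omega
  have two_choose : ∀ k : ℕ, 2 * (k + 1).choose 2 = (k + 1) * k := by
    intro k
    rw [Nat.choose_two_right, mul_comm]
    exact Nat.div_mul_cancel (even_iff_two_dvd.1 (Nat.even_mul_pred_self (k + 1)))
  have six_choose : ∀ k : ℕ, 6 * (k + 2).choose 3 = (k + 2) * (k + 1) * k := by
    intro k
    induction k with
    | zero => rfl
    | succ k ih =>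
      rw [Nat.choose_succ_succ' (k + 2) 2, mul_add, ih]
      have := two_choose (k + 1)
      nlinarith [this]
  rw [sum_range_succ, sum_range_succ, sum_range_succ, sum_range_zero]
  simp only [card_cls, h1, h2]
  unfold turan
  rw [h1, h2]
  have e3 : (0 : ℕ) % 3 = 0 := rfl
  have e4 : (0 + 1 : ℕ) % 3 = 1 := rfl
  have e6 : (1 + 1 : ℕ) % 3 = 2 := rfl
  simp only [e3, e4, e6, zero_add]
  rcases Nat.eq_zero_or_pos s with rfl | hs0
  · interval_cases r <;> decide
  obtain ⟨k, rfl⟩ : ∃ k, s = k + 1 := ⟨s - 1, by omega⟩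
  rcases Nat.eq_zero_or_pos k with rfl | hk0
  · interval_cases r <;> decide
  obtain ⟨l, rfl⟩ : ∃ l, k = l + 1 := ⟨k - 1, by omega⟩
  have a1 := six_choose l
  have a2 := two_choose (l + 1)
  have a3 := six_choose (l + 1)
  have a4 := two_choose (l + 2)
  have : (6 : ℤ) ≠ 0 := by norm_num
  interval_cases r
  · have e9 : 2 * (l + 1 + 1) - 1 = 2 * l + 3 := by omega
    have e10 : l + 1 + 1 - 1 = l + 1 := by omega
    norm_num
    rw [e9]
    zify at a1 a2 ⊢
    apply mul_left_cancel₀ this
    linear_combination 3 * a1 + 9 * (l + 2) * a2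
  · have e9 : 2 * (l + 1 + 1) - 1 = 2 * l + 3 := by omega
    norm_num
    rw [e9]
    zify at a1 a2 a3 a4 ⊢
    apply mul_left_cancel₀ this
    linear_combination 2 * a1 + a3 + 3 * (l + 3) * a2 + 3 * (l + 2) * a2 + 3 * (l + 2) * a4
  · norm_num
    zify at a1 a2 a3 a4 ⊢
    apply mul_left_cancel₀ this
    linear_combination a1 + 2 * a3 + 3 * (l + 3) * a2 + 3 * (l + 3) * a4 + 3 * (l + 2) * a4

theorem triple_eq {V : Type*} [DecidableEq V] {t : Finset V} (ht : t.card = 3) {a b c : V} (ha : a ∈ t)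
    (hb : b ∈ t) (hc : c ∈ t) (h1 : a ≠ b) (h2 : b ≠ c) (h3 : a ≠ c) : t = {a, b, c} := by
  symm
  apply eq_of_subset_of_card_le
  · intro w hw
    simp only [mem_insert, mem_singleton] at hw
    rcases hw with rfl | rfl | rfl <;> assumption
  · rw [ht, card_insert_of_notMem, card_insert_of_notMem, card_singleton] <;>
      simp [h1, h2, h3]

theorem col_le (n : ℕ) : (col (Mid (td n)) (univ : Finset (Fin n))).card ≤ turan n := by
  have hax := metric_axioms (td_metric n)
  have h0 : col (Mid (td n)) (univ : Finset (Fin n)) ⊆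
      (range 3).biUnion (fun i => (cls n i).powersetCard 3 ∪
        ((cls n i) ×ˢ ((cls n (i + 1)).powersetCard 2)).image (fun p => insert p.1 p.2)) := by
    intro t ht
    rw [mem_col] at ht
    obtain ⟨ht, a, ha, b, hb, c, hc, h⟩ := ht
    have hcard := (mem_powersetCard.1 ht).2
    have e1 := h.1
    have e2 := h.2.1
    have e3 := hax.1 _ _ _ h
    have hm := td_mid h
    have hcla := cl_lt a
    have hclc := cl_lt c
    rw [mem_biUnion]
    rcases hm with ⟨h1, h2, _⟩ | ⟨h1, h2, _⟩ | ⟨h1, h2, _⟩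
    · refine ⟨cl a, mem_range.2 hcla, mem_union.2 (Or.inl ?_)⟩
      refine mem_powersetCard.2 ⟨fun w hw => mem_filter.2 ⟨mem_univ _, ?_⟩, hcard⟩
      rw [triple_eq hcard ha hb hc e1 e2 e3] at hw
      simp only [mem_insert, mem_singleton] at hw
      rcases hw with rfl | rfl | rfl <;> omega
    · refine ⟨cl a, mem_range.2 hcla, mem_union.2 (Or.inr (mem_image.2 ⟨(a, {b, c}),
        mem_product.2 ⟨mem_filter.2 ⟨mem_univ _, (Nat.mod_eq_of_lt hcla).symm⟩,
        mem_powersetCard.2 ⟨?_, ?_⟩⟩, ?_⟩))⟩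
      · intro w hw
        simp only [mem_insert, mem_singleton] at hw
        refine mem_filter.2 ⟨mem_univ _, ?_⟩
        rcases hw with rfl | rfl <;> omega
      · rw [card_insert_of_notMem (by simpa using e2), card_singleton]
      · exact (triple_eq hcard ha hb hc e1 e2 e3).symm
    · refine ⟨cl c, mem_range.2 hclc, mem_union.2 (Or.inr (mem_image.2 ⟨(c, {b, a}),
        mem_product.2 ⟨mem_filter.2 ⟨mem_univ _, (Nat.mod_eq_of_lt hclc).symm⟩,
        mem_powersetCard.2 ⟨?_, ?_⟩⟩, ?_⟩))⟩
      · intro w hw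
        simp only [mem_insert, mem_singleton] at hw
        refine mem_filter.2 ⟨mem_univ _, ?_⟩
        rcases hw with rfl | rfl <;> omega
      · rw [card_insert_of_notMem (by simpa using e1.symm), card_singleton]
      · exact (triple_eq hcard hc hb ha e2.symm e1.symm e3.symm).symm
  have h1 := card_le_card h0
  have h2 := h1.trans (card_biUnion_le.trans (sum_le_sum fun i _ =>
    (card_union_le _ _).trans (Nat.add_le_add_left card_image_le _)))
  simp only [card_powersetCard, card_product] at h2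
  rwa [choose_bound] at h2

theorem mid_mixed {n : ℕ} {x y z : Fin n} (h1 : cl y = (cl x + 1) % 3) (h2 : cl y = cl z)
    (h3 : po y < po z) : Mid (td n) x y z := by
  have hcx := cl_lt x
  refine ⟨?_, ?_, ?_⟩
  · rintro rfl
    omega
  · rintro rfl
    exact lt_irrefl _ h3
  · rw [td_next h1, td_next (x := x) (y := z) (by rw [← h2]; exact h1), td_same h2,
      abs_of_neg (by linarith)]
    ring

theorem mid_same {n : ℕ} {x y z : Fin n} (h1 : cl x = cl y) (h2 : cl y = cl z)
    (h3 : po x < po y) (h4 : po y < po z) : Mid (td n) x y z := by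
  refine ⟨?_, ?_, ?_⟩
  · rintro rfl
    exact lt_irrefl _ h3
  · rintro rfl
    exact lt_irrefl _ h4
  · rw [td_same h1, td_same h2, td_same (h1.trans h2), abs_of_neg (by linarith),
      abs_of_neg (by linarith), abs_of_neg (by linarith)]
    ring

theorem four_classes : ∀ c : Fin 4 → Fin 3, ∃ i j k : Fin 4, i ≠ j ∧ j ≠ k ∧ i ≠ k ∧
    c j = c k ∧ (c i = c j ∨ c j = c i + 1) := by
  decide

theorem td_cov (n : ℕ) : Cov (Mid (td n)) (univ : Finset (Fin n)) := by
  intro Q _ hQ
  set f := Q.orderEmbOfFin hQ with hf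
  obtain ⟨i, j, k, hij, hjk, hik, h1, h2⟩ :=
    four_classes fun i => ⟨cl (f i), cl_lt _⟩
  have hfi : f i ∈ Q := Q.orderEmbOfFin_mem hQ i
  have hfj : f j ∈ Q := Q.orderEmbOfFin_mem hQ j
  have hfk : f k ∈ Q := Q.orderEmbOfFin_mem hQ k
  have nij : f i ≠ f j := fun h => hij (f.injective h)
  have njk : f j ≠ f k := fun h => hjk (f.injective h)
  have nik : f i ≠ f k := fun h => hik (f.injective h)
  generalize f i = x at *
  generalize f j = y at *
  generalize f k = z at *
  rw [Fin.ext_iff] at h1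
  simp only at h1
  have hyz : po y ≠ po z := fun h => njk (eq_of h1 h)
  rcases h2 with h2 | h2
  · rw [Fin.ext_iff] at h2
    simp only at h2
    have hxy : po x ≠ po y := fun h => nij (eq_of h2 h)
    have hxz : po x ≠ po z := fun h => nik (eq_of (h2.trans h1) h)
    rcases lt_or_gt_of_ne hxy with a | a <;> rcases lt_or_gt_of_ne hyz with b | b
    · exact ⟨x, hfi, y, hfj, z, hfk, mid_same h2 h1 a b⟩
    · rcases lt_or_gt_of_ne hxz with c | c
      · exact ⟨x, hfi, z, hfk, y, hfj, mid_same (h2.trans h1) h1.symm c b⟩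
      · exact ⟨z, hfk, x, hfi, y, hfj, mid_same (h2.trans h1).symm h2 c a⟩
    · rcases lt_or_gt_of_ne hxz with c | c
      · exact ⟨y, hfj, x, hfi, z, hfk, mid_same h2.symm (h2.trans h1) a c⟩
      · exact ⟨y, hfj, z, hfk, x, hfi, mid_same h1 (h2.trans h1).symm b c⟩
    · exact ⟨z, hfk, y, hfj, x, hfi, mid_same h1.symm h2.symm b a⟩
  · rw [Fin.ext_iff, Fin.val_add] at h2
    simp only at h2
    have h3 : cl y = (cl x + 1) % 3 := h2
    rcases lt_or_gt_of_ne hyz with b | b
    · exact ⟨x, hfi, y, hfj, z, hfk, mid_mixed h3 h1 b⟩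
    · exact ⟨x, hfi, z, hfk, y, hfj, mid_mixed (by rw [← h1]; exact h3) h1.symm b⟩

/-- Turán's number of collinear triples is attained. -/
theorem sharp (n : ℕ) : IsMetric (td n) ∧ Cat (td n) ∧ Cov (Mid (td n)) (univ : Finset (Fin n)) ∧
    (col (Mid (td n)) (univ : Finset (Fin n))).card = turan n := by
  refine ⟨td_metric n, td_cat n, td_cov n, le_antisymm (col_le n) ?_⟩
  have := turan_le (cat_axm (td_metric n) (td_cat n)) (td_cov n)
  rwa [card_univ, Fintype.card_fin] at this

end Pool.Agent.Helper64.Btw
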