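import Pool.Agent.Helper64.Btw.Count

/-!
# The CAT(0) inequality gives unique geodesics and the local-to-global property
-/

set_option autoImplicit false
open Finset
open scoped Classical

namespace Pool.Agent.Helper64.Btw

variable {X : Type*}

/-- `d` is a metric -/
structure IsMetric (d : X → X → ℝ) : Prop where
  zero : ∀ x y, d x y = 0 ↔ x = y
  symm : ∀ x y, d x y = d y x
  tri : ∀ x y z, d x z ≤ d x y + d y z

/-- the point `y` is (strictly) between `x` and `z` -/
def Mid (d : X → X → ℝ) (x y z : X) : Prop := x ≠ y ∧ y ≠ z ∧ d x z = d x y + d y z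

/-- the CAT(0) inequality for a point `y` between `x` and `z` and an arbitrary point `p` -/
def Cat (d : X → X → ℝ) : Prop := ∀ p x y z, d x z = d x y + d y z →
  d p y ^ 2 * d x z ≤ d y z * d p x ^ 2 + d x y * d p z ^ 2 - d x y * d y z * d x z

section
variable {d : X → X → ℝ} (hd : IsMetric d)
include hd

theorem dist_nonneg' (x y : X) : 0 ≤ d x y := by
  have h1 := hd.tri x y x
  have h2 := (hd.zero x x).2 rfl
  have h3 := hd.symm x y
  linarith

theorem dist_pos' {x y : X} (h : x ≠ y) : 0 < d x y :=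
  lt_of_le_of_ne (dist_nonneg' hd x y) fun k => h ((hd.zero x y).1 k.symm)

/-- the axioms which hold in every metric space -/
theorem metric_axioms : (∀ a b c, Mid d a b c → a ≠ c) ∧ (∀ a b c, Mid d a b c → Mid d c b a) ∧
    (∀ a b c, Mid d a b c → ¬ Mid d b a c) ∧
    (∀ a b c e, Mid d a b c → Mid d a c e → Mid d a b e ∧ Mid d b c e) := by
  refine ⟨?_, ?_, ?_, ?_⟩
  · rintro a b c ⟨h1, h2, h3⟩ rfl
    have := dist_pos' hd h1
    have := dist_pos' hd h2
    have := (hd.zero a a).2 rfl
    linarith
  · rintro a b c ⟨h1, h2, h3⟩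
    exact ⟨h2.symm, h1.symm, by rw [hd.symm c a, hd.symm c b, hd.symm b a, h3, add_comm]⟩
  · rintro a b c ⟨h1, h2, h3⟩ ⟨_, _, h4⟩
    have := dist_pos' hd h1
    have := hd.symm a b
    linarith
  · rintro a b c e ⟨h1, h2, h3⟩ ⟨h4, h5, h6⟩
    have k1 := hd.tri b c e
    have k2 := hd.tri a b e
    have k3 : d b e = d b c + d c e := by linarith
    have p1 := dist_pos' hd h2
    have p2 := dist_pos' hd h5
    refine ⟨⟨h1, ?_, by linarith⟩, h2, h5, k3⟩
    rintro rfl
    have := (hd.zero b b).2 rfl
    linarith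

theorem cat_t2 (hc : Cat d) (a b c e : X) (h1 : Mid d a b c) (h2 : Mid d b c e) : Mid d a b e := by
  obtain ⟨n1, n2, h1⟩ := h1
  obtain ⟨n3, n4, h2⟩ := h2
  have p1 := dist_pos' hd n1
  have p2 := dist_pos' hd n2
  have p3 := dist_pos' hd n4
  have k := hc a b c e h2
  have t1 := hd.tri a b e
  have t2 := dist_nonneg' hd a e
  rw [h1, h2] at k
  rw [h2] at t1
  have key : (d a b + d b c + d c e) ^ 2 ≤ d a e ^ 2 := by
    by_contra hcon
    push Not at hcon
    have : d b c * d a e ^ 2 < d b c * (d a b + d b c + d c e) ^ 2 :=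
      mul_lt_mul_of_pos_left hcon p2
    nlinarith [this, k]
  have key2 : d a b + d b c + d c e ≤ d a e := by
    apply le_of_sq_le_sq' t2 key
  refine ⟨n1, ?_, by linarith⟩
  rintro rfl
  have := (hd.zero b b).2 rfl
  linarith
where
  le_of_sq_le_sq' {u v : ℝ} (hv : 0 ≤ v) (h : u ^ 2 ≤ v ^ 2) : u ≤ v := by
    by_contra hcon
    push Not at hcon
    nlinarith

theorem cat_geo (hc : Cat d) (a x y c : X) (h1 : Mid d a x c) (h2 : Mid d a y c) :
    x = y ∨ Mid d a x y ∨ Mid d a y x := by
  obtain ⟨n1, n2, h1⟩ := h1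
  obtain ⟨n3, n4, h2⟩ := h2
  by_cases hxy : x = y
  · exact Or.inl hxy
  right
  have p0 := dist_pos' hd hxy
  have p1 := dist_pos' hd n1
  have p2 := dist_pos' hd n2
  have p3 := dist_pos' hd n3
  have p4 := dist_pos' hd n4
  have k := hc y a x c h1
  have s1 := hd.symm y a
  have s2 := hd.symm y x
  rw [s1, s2] at k
  have hD : d a c = d a x + d x c := h1
  have key : d x y ^ 2 ≤ (d a y - d a x) ^ 2 := by
    by_contra hcon
    push Not at hcon
    have hpos : 0 < d a c := by linarith
    have : (d a y - d a x) ^ 2 * d a c < d x y ^ 2 * d a c := mul_lt_mul_of_pos_right hcon hpos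
    have e1 : d y c = d a c - d a y := by linarith
    have e2 : d x c = d a c - d a x := by linarith
    rw [e1, e2] at k
    nlinarith [this, k]
  rcases lt_trichotomy (d a x) (d a y) with h | h | h
  · left
    have : d x y ≤ d a y - d a x := by
      by_contra hcon
      push Not at hcon
      nlinarith
    have t := hd.tri a x y
    exact ⟨n1, hxy, by linarith⟩
  · exfalso
    rw [h, sub_self] at key
    nlinarith
  · right
    have : d x y ≤ d a x - d a y := by
      by_contra hcon
      push Not at hcon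
      nlinarith
    have t := hd.tri a y x
    exact ⟨n3, fun k => hxy k.symm, by linarith⟩

theorem cat_axm (hc : Cat d) : Axm (Mid d) :=
  ⟨(metric_axioms hd).1, (metric_axioms hd).2.1, (metric_axioms hd).2.2.1,
    (metric_axioms hd).2.2.2, cat_t2 hd hc, cat_geo hd hc⟩

end

end Pool.Agent.Helper64.Btw
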