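import Pool.Agent.Helper64.Btw.Good

/-!
# Pairs with few points between them, and the number of collinear triples
-/

set_option autoImplicit false
open Finset
open scoped Classical

namespace Pool.Agent.Helper64.Btw

variable {V : Type*}

/-- the points of `S` between the two points of `P` -/
noncomputable def itv (B : V → V → V → Prop) (S P : Finset V) : Finset V :=
  S.filter fun w => ∃ a ∈ P, ∃ c ∈ P, B a w c

/-- the number of pairs with fewer than `k` points between them -/
noncomputable def near (B : V → V → V → Prop) (S : Finset V) (k : ℕ) : ℕ :=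
  ((S.powersetCard 2).filter fun P => (itv B S P).card < k).card

/-- the collinear triples -/
noncomputable def col (B : V → V → V → Prop) (S : Finset V) : Finset (Finset V) :=
  (S.powersetCard 3).filter fun t => ∃ a ∈ t, ∃ b ∈ t, ∃ c ∈ t, B a b c

theorem mem_col {B : V → V → V → Prop} {S t : Finset V} : t ∈ col B S ↔
    t ∈ S.powersetCard 3 ∧ ∃ a ∈ t, ∃ b ∈ t, ∃ c ∈ t, B a b c := by
  unfold col
  rw [mem_filter]

/-- Turán's number -/
def turan (n : ℕ) : ℕ :=
  if n % 3 = 0 then (n / 3) * (n / 3 - 1) * (2 * (n / 3) - 1)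
  else if n % 3 = 1 then (n / 3) ^ 2 * (2 * (n / 3) - 1)
  else (n / 3) ^ 2 * (2 * (n / 3) + 1)

section
variable {B : V → V → V → Prop} (hB : Axm B)
include hB

omit hB in
theorem near_erase {S : Finset V} {p : V} (hp : p ∈ S) (k : ℕ) :
    near B S k ≤ near B (S.erase p) k + ((S.erase p).filter fun y => lev B S p y < k).card := by
  have h1 : (S.powersetCard 2).filter (fun P => (itv B S P).card < k) ⊆
      (((S.erase p).powersetCard 2).filter fun P => (itv B (S.erase p) P).card < k) ∪
        (((S.erase p).filter fun y => lev B S p y < k).image fun y => {p, y}) := by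
    intro P hP
    rw [mem_filter, mem_powersetCard] at hP
    obtain ⟨⟨hPS, hP2⟩, hl⟩ := hP
    rw [mem_union]
    by_cases hpP : p ∈ P
    · right
      obtain ⟨a, b, hab, rfl⟩ := card_eq_two.1 hP2
      have key : ∀ y, y ∈ S → y ≠ p → ({a, b} : Finset V) = {p, y} →
          ({a, b} : Finset V) ∈ ((S.erase p).filter fun y => lev B S p y < k).image
            fun y => ({p, y} : Finset V) := by
        intro y hy hyp he
        rw [mem_image]
        refine ⟨y, mem_filter.2 ⟨mem_erase.2 ⟨hyp, hy⟩, ?_⟩, he.symm⟩
        refine lt_of_le_of_lt (card_le_card ?_) hl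
        intro w hw
        rw [mem_filter] at hw
        unfold itv
        rw [mem_filter, he]
        exact ⟨hw.1, p, by simp, y, by simp, hw.2⟩
      simp only [mem_insert, mem_singleton] at hpP
      rcases hpP with rfl | rfl
      · exact key b (hPS (by simp)) hab.symm rfl
      · exact key a (hPS (by simp)) hab (pair_comm _ _)
    · left
      rw [mem_filter, mem_powersetCard]
      refine ⟨⟨fun x hx => mem_erase.2 ⟨?_, hPS hx⟩, hP2⟩, ?_⟩
      · rintro rfl
        exact hpP hx
      · refine lt_of_le_of_lt (card_le_card ?_) hl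
        intro w hw
        unfold itv at hw ⊢
        rw [mem_filter] at hw ⊢
        exact ⟨mem_of_mem_erase hw.1, hw.2⟩
  exact (card_le_card h1).trans ((card_union_le _ _).trans (Nat.add_le_add_left card_image_le _))

/-- **Few pairs have few points between them.** -/
theorem level_bound (k : ℕ) : ∀ (j : ℕ) (S : Finset V), S.card = 3 * k + j → Cov B S →
    2 * near B S k + 3 * k * (k + 1) ≤ 4 * k * S.card := by
  intro j
  induction j with
  | zero =>
    intro S hS _
    have h1 : near B S k ≤ (S.powersetCard 2).card := card_filter_le _ _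
    rw [card_powersetCard, hS, Nat.add_zero] at h1
    have h2 : 2 * (3 * k).choose 2 = 3 * k * (3 * k - 1) := by
      rw [Nat.choose_two_right, mul_comm]
      exact Nat.div_mul_cancel (even_iff_two_dvd.1 (Nat.even_mul_pred_self _))
    rw [hS]
    rcases Nat.eq_zero_or_pos k with rfl | hk
    · simp at h1 h2 ⊢
      omega
    · obtain ⟨l, rfl⟩ : ∃ l, k = l + 1 := ⟨k - 1, by omega⟩
      have e : 3 * (l + 1) - 1 = 3 * l + 2 := by omega
      rw [e] at h2
      nlinarith [h1, h2]
  | succ j ih =>
    intro S hS hcov
    obtain ⟨p, hp, hgood⟩ := good hB hcov (k := k) (by omega)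
    have h1 := ih (S.erase p) (by rw [card_erase_of_mem hp]; omega) (hcov.mono (erase_subset p S))
    have h2 := near_erase (B := B) hp k
    have h3 : S.card = (S.erase p).card + 1 := (card_erase_add_one hp).symm
    rw [h3]
    nlinarith [h1, h2, hgood]

theorem mid_unique {a m c a' m' c' : V} (h : B a m c) (h' : B a' m' c')
    (he : ({m, a, c} : Finset V) = {m', a', c'}) : m = m' := by
  by_contra hne
  have n1 := ne12 hB h
  have n2 := ne23 hB h
  have n3 := hB.ends _ _ _ h
  have n1' := ne12 hB h'
  have n2' := ne23 hB h'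
  have n3' := hB.ends _ _ _ h'
  have hm : m ∈ ({m', a', c'} : Finset V) := by
    rw [← he]
    simp
  have ha : a ∈ ({m', a', c'} : Finset V) := by
    rw [← he]
    simp
  have hc : c ∈ ({m', a', c'} : Finset V) := by
    rw [← he]
    simp
  simp only [mem_insert, mem_singleton] at hm ha hc
  have s := hB.symm _ _ _ h
  have w1 := hB.mid _ _ _ h
  have w2 := mid' hB h
  have w3 := hB.mid _ _ _ s
  have w4 := mid' hB s
  rcases hm with e | e | e
  · exact hne e
  · rcases ha with f | f | f
    · rcases hc with g | g | g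
      · exact n3 (f.trans g.symm)
      · exact n2 (e.trans g.symm)
      · rw [← e, ← f, ← g] at h'
        exact w1 h'
    · exact n1 (f.trans e.symm)
    · rcases hc with g | g | g
      · rw [← e, ← f, ← g] at h'
        exact w3 h'
      · exact n2 (e.trans g.symm)
      · exact n3 (f.trans g.symm)
  · rcases ha with f | f | f
    · rcases hc with g | g | g
      · exact n3 (f.trans g.symm)
      · rw [← e, ← f, ← g] at h'
        exact w4 h'
      · exact n2 (e.trans g.symm)
    · rcases hc with g | g | g
      · rw [← e, ← f, ← g] at h'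
        exact w2 h'
      · exact n3 (f.trans g.symm)
      · exact n2 (e.trans g.symm)
    · exact n1 (f.trans e.symm)

/-- the collinear triples are counted by the points between pairs -/
theorem col_ge (S : Finset V) : ∑ P ∈ S.powersetCard 2, (itv B S P).card ≤ (col B S).card := by
  rw [← card_sigma]
  apply card_le_card_of_injOn (fun q => insert q.2 q.1)
  · intro q hq
    have hq' := mem_sigma.1 (mem_coe.1 hq)
    rw [mem_powersetCard] at hq'
    obtain ⟨⟨h1, h2⟩, h3⟩ := hq'
    unfold itv at h3
    rw [mem_filter] at h3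
    obtain ⟨h4, a, ha, c, hc, h5⟩ := h3
    have hn : q.2 ∉ q.1 := by
      intro hmem
      obtain ⟨u, v, huv, he⟩ := card_eq_two.1 h2
      rw [he] at hmem ha hc
      simp only [mem_insert, mem_singleton] at hmem ha hc
      have e1 := ne12 hB h5
      have e2 := ne23 hB h5
      have e3 := hB.ends _ _ _ h5
      rcases hmem with rfl | rfl <;> rcases ha with rfl | rfl <;> rcases hc with rfl | rfl <;>
        first
        | exact e1 rfl
        | exact e2 rfl
        | exact e3 rfl
    apply mem_coe.2
    unfold col
    rw [mem_filter, mem_powersetCard]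
    exact ⟨⟨insert_subset h4 h1, by rw [card_insert_of_notMem hn, h2]⟩,
      a, mem_insert_of_mem ha, q.2, mem_insert_self _ _, c, mem_insert_of_mem hc, h5⟩
  · intro q hq q' hq' h
    have key : ∀ q : (_ : Finset V) × V, q ∈ (S.powersetCard 2).sigma (fun P => itv B S P) →
        ∃ a c, q.1 = {a, c} ∧ B a q.2 c := by
      intro q hq
      have hq' := mem_sigma.1 hq
      rw [mem_powersetCard] at hq'
      obtain ⟨⟨h1, h2⟩, h3⟩ := hq'
      unfold itv at h3
      rw [mem_filter] at h3
      obtain ⟨h4, a, ha, c, hc, h5⟩ := h3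
      obtain ⟨u, v, huv, he⟩ := card_eq_two.1 h2
      rw [he] at ha hc
      simp only [mem_insert, mem_singleton] at ha hc
      have e3 := hB.ends _ _ _ h5
      rcases ha with rfl | rfl <;> rcases hc with rfl | rfl
      · exact absurd rfl e3
      · exact ⟨_, _, he, h5⟩
      · exact ⟨_, _, he, hB.symm _ _ _ h5⟩
      · exact absurd rfl e3
    obtain ⟨a, c, h1, h2⟩ := key q (mem_coe.1 hq)
    obtain ⟨a', c', h1', h2'⟩ := key q' (mem_coe.1 hq')
    obtain ⟨P, m⟩ := q
    obtain ⟨P', m'⟩ := q'
    simp only at h1 h2 h1' h2' h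
    have n1 := ne12 hB h2
    have n2 := ne23 hB h2
    have n3 := hB.ends _ _ _ h2
    have n1' := ne12 hB h2'
    have n2' := ne23 hB h2'
    have n3' := hB.ends _ _ _ h2'
    have hmm : m = m' := mid_unique hB h2 h2' (by rw [h1, h1'] at h; exact h)
    subst hmm
    have hm : m ∉ P := by
      rw [h1]
      simp only [mem_insert, mem_singleton, not_or]
      exact ⟨n1.symm, n2⟩
    have hm' : m ∉ P' := by
      rw [h1']
      simp only [mem_insert, mem_singleton, not_or]
      exact ⟨n1'.symm, n2'⟩
    have hPP : P = P' := by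
      rw [← erase_insert hm, ← erase_insert hm', h]
    rw [hPP]

omit hB in
theorem sum_levels (S : Finset V) (m : ℕ) :
    m * S.card.choose 2 ≤ ∑ P ∈ S.powersetCard 2, (itv B S P).card +
      ∑ k ∈ range m, near B S (k + 1) := by
  have h1 : ∀ P ∈ S.powersetCard 2, m ≤ (itv B S P).card +
      ∑ k ∈ range m, if (itv B S P).card < k + 1 then 1 else 0 := by
    intro P _
    generalize (itv B S P).card = c
    induction m with
    | zero => omega
    | succ m ih =>
      rw [sum_range_succ]
      split_ifs with h
      · omega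
      · omega
  have h2 := sum_le_sum h1
  rw [sum_const, card_powersetCard, smul_eq_mul, sum_add_distrib, sum_comm] at h2
  have h3 : ∑ y ∈ range m, ∑ x ∈ S.powersetCard 2, (if (itv B S x).card < y + 1 then 1 else 0) =
      ∑ k ∈ range m, near B S (k + 1) := by
    apply sum_congr rfl
    intro k _
    unfold near
    rw [card_filter]
  rw [h3] at h2
  rw [mul_comm]
  exact h2

omit hB in
theorem arith (n c T : ℕ) (N : ℕ → ℕ) (hc : 2 * c = n * (n - 1))
    (hN : ∀ k < n / 3, 2 * N (k + 1) + 3 * (k + 1) * (k + 2) ≤ 4 * (k + 1) * n)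
    (hT : n / 3 * c ≤ T + ∑ k ∈ range (n / 3), N (k + 1)) : turan n ≤ T := by
  have h1 : ∀ m ≤ n / 3, 2 * ∑ k ∈ range m, N (k + 1) + m * (m + 1) * (m + 2) ≤
      2 * m * (m + 1) * n := by
    intro m
    induction m with
    | zero => simp
    | succ m ih =>
      intro hm
      rw [sum_range_succ]
      have a := ih (by omega)
      have b := hN m (by omega)
      nlinarith [a, b]
  have h2 := h1 (n / 3) le_rfl
  have hr : n = 3 * (n / 3) + n % 3 := by omega
  have hr3 : n % 3 < 3 := Nat.mod_lt _ (by norm_num)
  unfold turan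
  generalize n / 3 = m at *
  generalize n % 3 = r at *
  generalize ∑ k ∈ range m, N (k + 1) = s at *
  clear h1 hN
  subst hr
  rcases Nat.eq_zero_or_pos m with rfl | hm
  · split_ifs <;> simp
  obtain ⟨k, rfl⟩ : ∃ k, m = k + 1 := ⟨m - 1, by omega⟩
  have e1 : 2 * (k + 1) - 1 = 2 * k + 1 := by omega
  have e2 : k + 1 - 1 = k := by omega
  have e3 : 3 * (k + 1) + r - 1 = 3 * k + 2 + r := by omega
  rw [e3] at hc
  rw [e1, e2]
  interval_cases r
  · rw [if_pos rfl]
    zify at hc hT h2 ⊢
    nlinarith [hc, hT, h2]
  · rw [if_neg (by norm_num), if_pos rfl]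
    zify at hc hT h2 ⊢
    nlinarith [hc, hT, h2]
  · rw [if_neg (by norm_num), if_neg (by norm_num)]
    zify at hc hT h2 ⊢
    nlinarith [hc, hT, h2]

theorem levels {S : Finset V} (hcov : Cov B S) {k : ℕ} (hk : 3 * k ≤ S.card) :
    2 * near B S k + 3 * k * (k + 1) ≤ 4 * k * S.card :=
  level_bound hB k (S.card - 3 * k) S (by omega) hcov

/-- **Collinear triples.** -/
theorem turan_le {S : Finset V} (hcov : Cov B S) : turan S.card ≤ (col B S).card := by
  apply arith S.card (S.card.choose 2) _ (near B S)
  · rw [Nat.choose_two_right, mul_comm]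
    exact Nat.div_mul_cancel (even_iff_two_dvd.1 (Nat.even_mul_pred_self _))
  · intro k hk
    exact levels hB hcov (by omega)
  · have h1 := sum_levels (B := B) S (S.card / 3)
    have h2 := col_ge hB S
    omega

end

end Pool.Agent.Helper64.Btw
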