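import Pool.Agent.Helper64.Btw.Hull

/-!
# The sides of the triangle, and a leaf with few near points
-/

set_option autoImplicit false
open Finset
open scoped Classical

namespace Pool.Agent.Helper64.Btw

variable {V : Type*}

/-- `x` is on the side `(p,q)` of the triangle `p, q, r` and on no other side -/
def Ex (B : V → V → V → Prop) (p q r x : V) : Prop := B p x q ∧ ¬ B q x r ∧ ¬ B r x p

/-- the number of points of `S` between `p` and `y` -/
noncomputable def lev (B : V → V → V → Prop) (S : Finset V) (p y : V) : ℕ :=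
  (S.filter fun w => B p w y).card

section
variable {B : V → V → V → Prop} (hB : Axm B)
include hB

theorem no_cross {S : Finset V} (hcov : Cov B S) {q r x y z : V} (hq : Leaf B S q)
    (hr : Leaf B S r) (hqr : q ≠ r) (hx : x ∈ S) (hz : z ∈ S) (xq : x ≠ q) (xr : x ≠ r)
    (zq : z ≠ q) (zr : z ≠ r) (hy : B q y r) (h1 : ¬ B q x r) (h2 : ¬ B q z r) (h3 : ¬ B q z x)
    (h4 : ¬ B r x z) : ¬ B x y z := by
  intro h
  rcases four hB hcov hq.1 hr.1 hx hz hqr xq.symm zq.symm xr.symm zr.symm (hB.ends _ _ _ h) with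
    (k | k | k) | (k | k | k) | (k | k | k) | (k | k | k)
  · exact hr.2 q hq.1 x hx k
  · exact hq.2 r hr.1 x hx k
  · exact h1 k
  · exact hr.2 q hq.1 z hz k
  · exact hq.2 r hr.1 z hz k
  · exact h2 k
  · exact h1 (hB.t1 _ _ _ _ (t1r hB k h).2 hy).1
  · exact hq.2 x hx z hz k
  · exact h3 k
  · exact h4 k
  · exact hr.2 x hx z hz k
  · exact h2 (hB.symm _ _ _ (hB.t1 _ _ _ _ (t1r hB k (hB.symm _ _ _ h)).2 (hB.symm _ _ _ hy)).1)

omit hB in
theorem tri_rot {S : Finset V} {p q r : V} (h : Tri B S p q r) : Tri B S q r p :=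
  ⟨h.2.1, h.2.2.1, h.1, h.2.2.2.2.1, h.2.2.2.2.2.symm, h.2.2.2.1.symm⟩

omit hB in
theorem tri_swap {S : Finset V} {p q r : V} (h : Tri B S p q r) : Tri B S p r q :=
  ⟨h.1, h.2.2.1, h.2.1, h.2.2.2.2.2, h.2.2.2.2.1.symm, h.2.2.2.1⟩

/-- points on three different sides are not collinear -/
theorem not_col {S : Finset V} (hcov : Cov B S) {p q r x y z : V} (h : Tri B S p q r)
    (hxS : x ∈ S) (hzS : z ∈ S) (hx : Ex B p q r x) (hy : Ex B q r p y)
    (hz : Ex B r p q z) : ¬ B x y z := by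
  obtain ⟨hp, hq, hr, n1, n2, n3⟩ := h
  refine no_cross hB hcov hq hr n2 hxS hzS (ne23 hB hx.1) ?_ ?_ (ne12 hB hz.1).symm hy.1 hx.2.1
    ?_ ?_ ?_
  · rintro rfl
    exact hr.2 p hp.1 q hq.1 hx.1
  · rintro rfl
    exact hq.2 r hr.1 p hp.1 hz.1
  · exact hz.2.2
  · intro k
    exact hz.2.1 (hB.symm _ _ _ (hB.t1 _ _ _ _ k (hB.symm _ _ _ hx.1)).1)
  · intro k
    exact hx.2.2 (hB.t1 _ _ _ _ k hz.1).1

/-- one of the two neighbours hides the opposite point -/
theorem hide {S : Finset V} (hcov : Cov B S) {p q r x y z : V} (h : Tri B S p q r)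
    (hxS : x ∈ S) (hyS : y ∈ S) (hzS : z ∈ S) (hx : Ex B p q r x) (hy : Ex B q r p y)
    (hz : Ex B r p q z) : B p x y ∨ B p z y := by
  have c1 := not_col hB hcov h hxS hzS hx hy hz
  have c2 := not_col hB hcov (tri_rot h) hyS hxS hy hz hx
  have c3 := not_col hB hcov (tri_rot (tri_rot h)) hzS hyS hz hx hy
  obtain ⟨hp, hq, hr, n1, n2, n3⟩ := h
  have xy : x ≠ y := by
    rintro rfl
    exact hx.2.1 hy.1
  have yz : y ≠ z := by
    rintro rfl
    exact hy.2.1 hz.1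
  have xz : x ≠ z := by
    rintro rfl
    exact hx.2.2 hz.1
  have py : p ≠ y := by
    rintro rfl
    exact hp.2 q hq.1 r hr.1 hy.1
  rcases four hB hcov hp.1 hxS hyS hzS (ne12 hB hx.1) py (ne23 hB hz.1).symm xy xz yz with
    (k | k | k) | (k | k | k) | (k | k | k) | (k | k | k)
  · exact Or.inl k
  · exact absurd k (hp.2 x hxS y hyS)
  · exact absurd (hB.t1 _ _ _ _ k hx.1).1 hy.2.2
  · exact absurd (hB.symm _ _ _ (hB.t1 _ _ _ _ k (hB.symm _ _ _ hz.1)).1) hx.2.2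
  · exact absurd k (hp.2 x hxS z hzS)
  · exact absurd (hB.t1 _ _ _ _ k hx.1).1 hz.2.1
  · exact absurd (hB.symm _ _ _ (hB.t1 _ _ _ _ k (hB.symm _ _ _ hz.1)).1) hy.2.1
  · exact absurd k (hp.2 y hyS z hzS)
  · exact Or.inr k
  · exact absurd k c1
  · exact absurd (hB.symm _ _ _ k) c3
  · exact absurd (hB.symm _ _ _ k) c2

theorem excl {p q r x y : V} (hx : Ex B p q r x) (h : B p x y) : ¬ B r y x := by
  intro k
  exact hx.2.2 (hB.symm _ _ _ (hB.t2 _ _ _ _ h (hB.symm _ _ _ k)))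

theorem excl' {p q r x y : V} (hx : Ex B p q r x) (h : B r y x) : ¬ B p x y := by
  intro k
  exact excl hB hx k h

omit hB in
theorem logic {A1 A2 B1 B2 C1 C2 : Prop} (h : (A1 ∨ A2) ∧ (B1 ∨ B2) ∧ (C1 ∨ C2) ∧ ¬ (A1 ∧ C2) ∧
    ¬ (B1 ∧ A2) ∧ ¬ (C1 ∧ B2)) :
    (A1 → B1 ∧ C1) ∧ (B1 → A1 ∧ C1) ∧ (C1 → A1 ∧ B1) ∧ (¬ A1 → A2 ∧ B2 ∧ C2) ∧
      (¬ B1 → A2 ∧ B2 ∧ C2) ∧ (¬ C1 → A2 ∧ B2 ∧ C2) := by
  obtain ⟨h1, h2, h3, h4, h5, h6⟩ := h
  have a1 : A1 → C1 := fun a => h3.resolve_right fun c => h4 ⟨a, c⟩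
  have a2 : C1 → B1 := fun a => h2.resolve_right fun c => h6 ⟨a, c⟩
  have a3 : B1 → A1 := fun a => h1.resolve_right fun c => h5 ⟨a, c⟩
  have key : ¬ A1 → A2 ∧ B2 ∧ C2 := fun n =>
    ⟨h1.resolve_left n, h2.resolve_left fun b => n (a3 b), h3.resolve_left fun c => n (a3 (a2 c))⟩
  exact ⟨fun a => ⟨a2 (a1 a), a1 a⟩, fun b => ⟨a3 b, a1 (a3 b)⟩, fun c => ⟨a3 (a2 c), a2 c⟩, key,
    fun n => key fun a => n (a2 (a1 a)), fun n => key fun a => n (a1 a)⟩

/-- the two cyclic types -/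
theorem plus_or_minus {S : Finset V} (hcov : Cov B S) {p q r : V} (h : Tri B S p q r)
    {x0 y0 z0 : V} (hx0S : x0 ∈ S) (hy0S : y0 ∈ S) (hz0S : z0 ∈ S) (hx0 : Ex B p q r x0)
    (hy0 : Ex B q r p y0) (hz0 : Ex B r p q z0) :
    (∀ x ∈ S, ∀ y ∈ S, ∀ z ∈ S, Ex B p q r x → Ex B q r p y → Ex B r p q z →
      B p x y ∧ B q y z ∧ B r z x) ∨
    (∀ x ∈ S, ∀ y ∈ S, ∀ z ∈ S, Ex B p q r x → Ex B q r p y → Ex B r p q z →
      B p z y ∧ B q x z ∧ B r y x) := by
  have key : ∀ x ∈ S, ∀ y ∈ S, ∀ z ∈ S, Ex B p q r x → Ex B q r p y → Ex B r p q z →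
      (B p x y ∨ B p z y) ∧ (B q y z ∨ B q x z) ∧ (B r z x ∨ B r y x) ∧
      ¬ (B p x y ∧ B r y x) ∧ ¬ (B q y z ∧ B p z y) ∧ ¬ (B r z x ∧ B q x z) := by
    intro x hxS y hyS z hzS hx hy hz
    refine ⟨hide hB hcov h hxS hyS hzS hx hy hz, hide hB hcov (tri_rot h) hyS hzS hxS hy hz hx,
      hide hB hcov (tri_rot (tri_rot h)) hzS hxS hyS hz hx hy, ?_, ?_, ?_⟩
    · rintro ⟨a, b⟩
      exact excl hB hx a b
    · rintro ⟨a, b⟩
      exact excl hB hy a b
    · rintro ⟨a, b⟩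
      exact excl hB hz a b
  have k0 := logic (key x0 hx0S y0 hy0S z0 hz0S hx0 hy0 hz0)
  by_cases hA : B p x0 y0
  · left
    intro x hxS y hyS z hzS hx hy hz
    have k1 := logic (key x hxS y0 hy0S z0 hz0S hx hy0 hz0)
    have k2 := logic (key x hxS y hyS z0 hz0S hx hy hz0)
    have k3 := logic (key x hxS y hyS z hzS hx hy hz)
    have m1 := (k0.1 hA).1
    have m2 := (k1.2.1 m1).2
    have m3 := (k2.2.2.1 m2).1
    exact ⟨m3, k3.1 m3⟩
  · right
    intro x hxS y hyS z hzS hx hy hz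
    have k1 := logic (key x hxS y0 hy0S z0 hz0S hx hy0 hz0)
    have k2 := logic (key x hxS y hyS z0 hz0S hx hy hz0)
    have k3 := logic (key x hxS y hyS z hzS hx hy hz)
    have m1 : ¬ B q y0 z0 := fun b => hA (k0.2.1 b).1
    have m2 : ¬ B r z0 x := fun c => m1 (k1.2.2.1 c).2
    have m3 : ¬ B p x y := fun a => m2 (k2.1 a).2
    exact k3.2.2.2.1 m3

theorem lev_lt {S : Finset V} {p y y' : V} (hy : y ∈ S) (h : B p y y') :
    lev B S p y < lev B S p y' := by
  apply card_lt_card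
  rw [ssubset_iff_of_subset]
  · exact ⟨y, mem_filter.2 ⟨hy, h⟩, fun k => ne23 hB (mem_filter.1 k).2 rfl⟩
  · intro w hw
    rw [mem_filter] at hw ⊢
    exact ⟨hw.1, (hB.t1 _ _ _ _ hw.2 h).1⟩

/-- a geodesic has one point on each level -/
theorem chain_count (S : Finset V) (p q : V) (k : ℕ) :
    (S.filter fun y => (y = q ∨ B p y q) ∧ lev B S p y < k).card ≤ k := by
  have h : (S.filter fun y => (y = q ∨ B p y q) ∧ lev B S p y < k).card ≤ (range k).card := by
    apply card_le_card_of_injOn (fun y => lev B S p y)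
    · intro y hy
      exact mem_coe.2 (mem_range.2 (mem_filter.1 (mem_coe.1 hy)).2.2)
    · intro y hy y' hy' he
      obtain ⟨h1, h2, _⟩ := mem_filter.1 (mem_coe.1 hy)
      obtain ⟨h1', h2', _⟩ := mem_filter.1 (mem_coe.1 hy')
      simp only at he
      rcases h2 with rfl | h2
      · rcases h2' with rfl | h2'
        · rfl
        · have := lev_lt hB h1' h2'
          omega
      · rcases h2' with rfl | h2'
        · have := lev_lt hB h1 h2
          omega
        · rcases hB.geo _ _ _ _ h2 h2' with e | e | e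
          · exact e
          · have := lev_lt hB h1 e
            omega
          · have := lev_lt hB h1' e
            omega
  rwa [card_range] at h

/-- a leaf of the triangle with no near point on the opposite side -/
theorem near_count {S : Finset V} (hcov : Cov B S) {p q r : V} (h : Tri B S p q r) (k : ℕ)
    (hfar : ∀ y ∈ S, Ex B q r p y → k ≤ lev B S p y) :
    ((S.erase p).filter fun y => lev B S p y < k).card ≤ 2 * k := by
  have h1 : (S.erase p).filter (fun y => lev B S p y < k) ⊆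
      (S.filter fun y => (y = q ∨ B p y q) ∧ lev B S p y < k) ∪
        (S.filter fun y => (y = r ∨ B p y r) ∧ lev B S p y < k) := by
    intro y hy
    rw [mem_filter, mem_erase] at hy
    obtain ⟨⟨hyp, hyS⟩, hl⟩ := hy
    rw [mem_union, mem_filter, mem_filter]
    rcases hull hB hcov h hyS with e | e | e | e | e | e
    · exact absurd e hyp
    · exact Or.inl ⟨hyS, Or.inl e, hl⟩
    · exact Or.inr ⟨hyS, Or.inl e, hl⟩
    · exact Or.inl ⟨hyS, Or.inr e, hl⟩
    · by_cases e1 : B r y p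
      · exact Or.inr ⟨hyS, Or.inr (hB.symm _ _ _ e1), hl⟩
      · by_cases e2 : B p y q
        · exact Or.inl ⟨hyS, Or.inr e2, hl⟩
        · have := hfar y hyS ⟨e, e1, e2⟩
          omega
    · exact Or.inr ⟨hyS, Or.inr (hB.symm _ _ _ e), hl⟩
  have h2 := (card_le_card h1).trans (card_union_le _ _)
  have h3 := chain_count hB S p q k
  have h4 := chain_count hB S p r k
  omega

theorem plus_case {S : Finset V} (hcov : Cov B S) {p q r : V} (h : Tri B S p q r) {k : ℕ}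
    (hk : 3 * k + 1 ≤ S.card) {x0 y0 z0 : V} (hx0S : x0 ∈ S) (hy0S : y0 ∈ S) (hz0S : z0 ∈ S)
    (hx0 : Ex B p q r x0) (hy0 : Ex B q r p y0) (hz0 : Ex B r p q z0)
    (hplus : ∀ x ∈ S, ∀ y ∈ S, ∀ z ∈ S, Ex B p q r x → Ex B q r p y → Ex B r p q z →
      B p x y ∧ B q y z ∧ B r z x) :
    ∃ p ∈ S, ((S.erase p).filter fun y => lev B S p y < k).card ≤ 2 * k := by
  have far : ∀ p q r : V, ∀ x ∈ S, Ex B p q r x → ∀ y, (∀ w ∈ S, Ex B p q r w → B p w y) →
      (S.filter fun w => B p w q ∧ (¬ B q w r ∨ B r w p)).card ≤ lev B S p y := by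
    intro p q r x hxS hx y hy
    apply card_le_card
    intro w hw
    rw [mem_filter] at hw ⊢
    refine ⟨hw.1, ?_⟩
    by_cases h1 : B r w p
    · rcases hB.geo _ _ _ _ hw.2.1 hx.1 with e | e | e
      · rw [e] at h1
        exact absurd h1 hx.2.2
      · exact (hB.t1 _ _ _ _ e (hy x hxS hx)).1
      · exact absurd (hB.symm _ _ _ (hB.t1 _ _ _ _ e (hB.symm _ _ _ h1)).1) hx.2.2
    · exact hy w hw.1 ⟨hw.2.1, hw.2.2.resolve_right h1, h1⟩
  set XP := S.filter fun w => B p w q ∧ (¬ B q w r ∨ B r w p) with hXP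
  set YQ := S.filter fun w => B q w r ∧ (¬ B r w p ∨ B p w q) with hYQ
  set ZR := S.filter fun w => B r w p ∧ (¬ B p w q ∨ B q w r) with hZR
  have hsub : S ⊆ ((XP ∪ YQ) ∪ ZR) ∪ {p, q, r} := by
    intro w hw
    simp only [mem_union, mem_insert, mem_singleton, hXP, hYQ, hZR, mem_filter]
    have := hull hB hcov h hw
    tauto
  have hc1 := card_le_card hsub
  have hc2 := card_union_le ((XP ∪ YQ) ∪ ZR) {p, q, r}
  have hc3 := card_union_le (XP ∪ YQ) ZR
  have hc4 := card_union_le XP YQ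
  have hc5 : ({p, q, r} : Finset V).card ≤ 3 := card_le_three
  by_cases c1 : k ≤ XP.card
  · refine ⟨p, h.1.1, near_count hB hcov h k ?_⟩
    intro y hyS hy
    refine c1.trans (far p q r x0 hx0S hx0 y ?_)
    intro w hwS hw
    exact (hplus w hwS y hyS z0 hz0S hw hy hz0).1
  · by_cases c2 : k ≤ YQ.card
    · refine ⟨q, h.2.1.1, near_count hB hcov (tri_rot h) k ?_⟩
      intro z hzS hz
      refine c2.trans (far q r p y0 hy0S hy0 z ?_)
      intro w hwS hw
      exact (hplus x0 hx0S w hwS z hzS hx0 hw hz).2.1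
    · refine ⟨r, h.2.2.1.1, near_count hB hcov (tri_rot (tri_rot h)) k ?_⟩
      intro x hxS hx
      refine le_trans (by omega : k ≤ ZR.card) (far r p q z0 hz0S hz0 x ?_)
      intro w hwS hw
      exact (hplus x hxS y0 hy0S w hwS hx hy0 hw).2.2

theorem ex_swap {p q r x : V} (h : Ex B p q r x) : Ex B q p r x :=
  ⟨hB.symm _ _ _ h.1, fun k => h.2.2 (hB.symm _ _ _ k), fun k => h.2.1 (hB.symm _ _ _ k)⟩

/-- **A leaf with few near points.** -/
theorem good {S : Finset V} (hcov : Cov B S) {k : ℕ} (hk : 3 * k + 1 ≤ S.card) :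
    ∃ p ∈ S, ((S.erase p).filter fun y => lev B S p y < k).card ≤ 2 * k := by
  rcases Nat.eq_zero_or_pos k with rfl | hk0
  · obtain ⟨p, hp⟩ : S.Nonempty := by
      rw [← card_pos]
      omega
    refine ⟨p, hp, ?_⟩
    rw [filter_false_of_mem]
    · simp
    · intro y _
      omega
  rcases segment_or_triangle hB (S.card - 2) S (by omega) hcov with ⟨p, q, h⟩ | ⟨p, q, r, h⟩
  · refine ⟨p, h.1, ?_⟩
    have h1 : (S.erase p).filter (fun y => lev B S p y < k) ⊆
        (S.filter fun y => (y = q ∨ B p y q) ∧ lev B S p y < k) := by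
      intro y hy
      rw [mem_filter, mem_erase] at hy
      obtain ⟨⟨hyp, hyS⟩, hl⟩ := hy
      rw [mem_filter]
      by_cases e : y = q
      · exact ⟨hyS, Or.inl e, hl⟩
      · exact ⟨hyS, Or.inr (h.2.2.2 y hyS hyp e), hl⟩
    have h2 := (card_le_card h1).trans (chain_count hB S p q k)
    omega
  · by_cases hX : ∃ x ∈ S, Ex B p q r x
    · by_cases hY : ∃ y ∈ S, Ex B q r p y
      · by_cases hZ : ∃ z ∈ S, Ex B r p q z
        · obtain ⟨x0, hx0S, hx0⟩ := hX
          obtain ⟨y0, hy0S, hy0⟩ := hY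
          obtain ⟨z0, hz0S, hz0⟩ := hZ
          rcases plus_or_minus hB hcov h hx0S hy0S hz0S hx0 hy0 hz0 with hplus | hminus
          · exact plus_case hB hcov h hk hx0S hy0S hz0S hx0 hy0 hz0 hplus
          · refine plus_case hB hcov (tri_swap h) hk hz0S hy0S hx0S (ex_swap hB hz0)
              (ex_swap hB hy0) (ex_swap hB hx0) ?_
            intro z hzS y hyS x hxS hz hy hx
            obtain ⟨m1, m2, m3⟩ := hminus x hxS y hyS z hzS (ex_swap hB hx) (ex_swap hB hy)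
              (ex_swap hB hz)
            exact ⟨m1, m3, m2⟩
        · refine ⟨q, h.2.1.1, near_count hB hcov (tri_rot h) k ?_⟩
          intro z hzS hz
          exact absurd ⟨z, hzS, hz⟩ hZ
      · refine ⟨p, h.1.1, near_count hB hcov h k ?_⟩
        intro y hyS hy
        exact absurd ⟨y, hyS, hy⟩ hY
    · refine ⟨r, h.2.2.1.1, near_count hB hcov (tri_rot (tri_rot h)) k ?_⟩
      intro x hxS hx
      exact absurd ⟨x, hxS, hx⟩ hX

end

end Pool.Agent.Helper64.Btw
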