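import Mathlib

/-!
# Betweenness with unique geodesics: the hull of a covering set is a segment or a triangle
-/

set_option autoImplicit false
open Finset
open scoped Classical

namespace Pool.Agent.Helper64.Btw

variable {V : Type*}

/-- A strict betweenness relation (`B a b c`: the point `b` lies strictly between `a` and `c`) with
unique geodesics (`geo`) in which local geodesics are geodesics (`t2`). -/
structure Axm (B : V → V → V → Prop) : Prop where
  ends : ∀ a b c, B a b c → a ≠ c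
  symm : ∀ a b c, B a b c → B c b a
  mid : ∀ a b c, B a b c → ¬ B b a c
  t1 : ∀ a b c d, B a b c → B a c d → B a b d ∧ B b c d
  t2 : ∀ a b c d, B a b c → B b c d → B a b d
  geo : ∀ a x y c, B a x c → B a y c → x = y ∨ B a x y ∨ B a y x

/-- every four points contain a point between two others -/
def Cov (B : V → V → V → Prop) (S : Finset V) : Prop :=
  ∀ Q ⊆ S, Q.card = 4 → ∃ a ∈ Q, ∃ b ∈ Q, ∃ c ∈ Q, B a b c

theorem Cov.mono {B : V → V → V → Prop} {S T : Finset V} (h : Cov B S) (hT : T ⊆ S) : Cov B T :=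
  fun Q hQ => h Q (hQ.trans hT)

/-- a point of `S` which is not between two points of `S` -/
def Leaf (B : V → V → V → Prop) (S : Finset V) (p : V) : Prop :=
  p ∈ S ∧ ∀ a ∈ S, ∀ c ∈ S, ¬ B a p c

/-- `S` is a geodesic segment with ends `p` and `q` -/
def Line (B : V → V → V → Prop) (S : Finset V) (p q : V) : Prop :=
  p ∈ S ∧ q ∈ S ∧ p ≠ q ∧ ∀ x ∈ S, x ≠ p → x ≠ q → B p x q

/-- three leaves -/
def Tri (B : V → V → V → Prop) (S : Finset V) (p q r : V) : Prop :=
  Leaf B S p ∧ Leaf B S q ∧ Leaf B S r ∧ p ≠ q ∧ q ≠ r ∧ p ≠ r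

section
variable {B : V → V → V → Prop} (hB : Axm B)
include hB

theorem ne12 {a b c : V} (h : B a b c) : a ≠ b := by
  rintro rfl
  exact hB.mid _ _ _ h h

theorem ne23 {a b c : V} (h : B a b c) : b ≠ c := by
  rintro rfl
  exact ne12 hB (hB.symm _ _ _ h) rfl

theorem mid' {a b c : V} (h : B a b c) : ¬ B a c b := by
  intro h'
  exact hB.mid _ _ _ (hB.symm _ _ _ h) (hB.symm _ _ _ h')

/-- `c ∈ (a,d)` and `b ∈ (c,d)` -/
theorem t1r {a b c d : V} (h1 : B a c d) (h2 : B c b d) : B a b d ∧ B a c b := by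
  obtain ⟨k1, k2⟩ := hB.t1 _ _ _ _ (hB.symm _ _ _ h2) (hB.symm _ _ _ h1)
  exact ⟨hB.symm _ _ _ k1, hB.symm _ _ _ k2⟩

theorem t2' {a b c d : V} (h1 : B a b c) (h2 : B b c d) : B a c d :=
  hB.symm _ _ _ (hB.t2 _ _ _ _ (hB.symm _ _ _ h2) (hB.symm _ _ _ h1))

theorem four {S : Finset V} (hcov : Cov B S) {w x y z : V} (hw : w ∈ S) (hx : x ∈ S) (hy : y ∈ S)
    (hz : z ∈ S) (h1 : w ≠ x) (h2 : w ≠ y) (h3 : w ≠ z) (h4 : x ≠ y) (h5 : x ≠ z) (h6 : y ≠ z) :
    (B w x y ∨ B x w y ∨ B w y x) ∨ (B w x z ∨ B x w z ∨ B w z x) ∨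
      (B w y z ∨ B y w z ∨ B w z y) ∨ (B x y z ∨ B y x z ∨ B x z y) := by
  obtain ⟨a, ha, b, hb, c, hc, h⟩ := hcov {w, x, y, z} (by
    intro t ht
    simp only [mem_insert, mem_singleton] at ht
    rcases ht with rfl | rfl | rfl | rfl <;> assumption) (by
    rw [card_insert_of_notMem, card_insert_of_notMem, card_insert_of_notMem, card_singleton] <;>
      simp [h1, h2, h3, h4, h5, h6])
  have e1 := ne12 hB h
  have e2 := ne23 hB h
  have e3 := hB.ends _ _ _ h
  have h' := hB.symm _ _ _ h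
  simp only [mem_insert, mem_singleton] at ha hb hc
  rcases ha with rfl | rfl | rfl | rfl <;> rcases hb with rfl | rfl | rfl | rfl <;>
    first
    | exact absurd rfl e1
    | (rcases hc with rfl | rfl | rfl | rfl <;>
        first
        | exact absurd rfl e2
        | exact absurd rfl e3
        | tauto)

/-- a point between two points of a segment is on the segment -/
theorem in_line {p q u v x : V} (hu : u = p ∨ u = q ∨ B p u q) (hv : v = p ∨ v = q ∨ B p v q)
    (h : B u x v) : B p x q := by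
  have hne := hB.ends _ _ _ h
  have h' := hB.symm _ _ _ h
  rcases hu with rfl | rfl | hu
  · rcases hv with rfl | rfl | hv
    · exact absurd rfl hne
    · exact h
    · exact (hB.t1 _ _ _ _ h hv).1
  · rcases hv with rfl | rfl | hv
    · exact h'
    · exact absurd rfl hne
    · exact (t1r hB hv h').1
  · rcases hv with rfl | rfl | hv
    · exact (hB.t1 _ _ _ _ h' hu).1
    · exact (t1r hB hu h).1
    · rcases hB.geo _ _ _ _ hu hv with e | e | e
      · exact absurd e hne
      · exact (hB.t1 _ _ _ _ (t1r hB e h).1 hv).1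
      · exact (hB.t1 _ _ _ _ (t1r hB e h').1 hu).1

theorem line_swap {S : Finset V} {p q : V} (h : Line B S p q) : Line B S q p :=
  ⟨h.2.1, h.1, h.2.2.1.symm, fun x hx h1 h2 => hB.symm _ _ _ (h.2.2.2 x hx h2 h1)⟩

theorem line_leaf {S : Finset V} {p q : V} (h : Line B S p q) : Leaf B S p := by
  refine ⟨h.1, ?_⟩
  intro a ha c hc hac
  have e1 := ne12 hB hac
  have e2 := ne23 hB hac
  have e3 := hB.ends _ _ _ hac
  have hac' := hB.symm _ _ _ hac
  by_cases haq : a = q
  · subst haq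
    have h2 := h.2.2.2 c hc e2.symm e3.symm
    exact mid' hB (hB.symm _ _ _ h2) hac
  · have h1 := h.2.2.2 a ha e1 haq
    by_cases hcq : c = q
    · subst hcq
      exact hB.mid _ _ _ h1 hac
    · have h2 := h.2.2.2 c hc e2.symm hcq
      rcases hB.geo _ _ _ _ h1 h2 with e | e | e
      · exact e3 e
      · exact hB.mid _ _ _ e hac
      · exact hB.mid _ _ _ e hac'

/-- if a leaf of `S \ {x}` is not a leaf of `S` then it is between a point and `x` -/
theorem not_leaf {S : Finset V} {p x : V} (hp : Leaf B (S.erase x) p) (hn : ¬ Leaf B S p) :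
    ∃ a ∈ S.erase x, B a p x := by
  unfold Leaf at hn
  push Not at hn
  obtain ⟨a, ha, c, hc, h⟩ := hn (mem_of_mem_erase hp.1)
  by_cases hax : a = x
  · subst hax
    have hne := (hB.ends _ _ _ h).symm
    exact ⟨c, mem_erase.2 ⟨hne, hc⟩, hB.symm _ _ _ h⟩
  · by_cases hcx : c = x
    · subst hcx
      exact ⟨a, mem_erase.2 ⟨hax, ha⟩, h⟩
    · exact absurd h (hp.2 a (mem_erase.2 ⟨hax, ha⟩) c (mem_erase.2 ⟨hcx, hc⟩))

theorem line_step1 {S : Finset V} {p q x : V} (hx : x ∈ S) (h : Line B (S.erase x) p q)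
    (hp : ¬ Leaf B S p) : Line B S q x := by
  obtain ⟨a, ha, hax⟩ := not_leaf hB (line_leaf hB h) hp
  have e1 := ne12 hB hax
  have hq : B q p x := by
    by_cases haq : a = q
    · rw [← haq]
      exact hax
    · exact t2' hB (hB.symm _ _ _ (h.2.2.2 a ha e1 haq)) hax
  refine ⟨mem_of_mem_erase h.2.1, hx, hB.ends _ _ _ hq, ?_⟩
  intro y hy h1 h2
  by_cases hyp : y = p
  · rw [hyp]
    exact hq
  · exact (hB.t1 _ _ _ _ (hB.symm _ _ _ (h.2.2.2 y (mem_erase.2 ⟨h2, hy⟩) hyp h1)) hq).1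

theorem line_step {S : Finset V} {p q x : V} (hx : x ∈ S) (h : Line B (S.erase x) p q) :
    (∃ p q, Line B S p q) ∨ ∃ p q r, Tri B S p q r := by
  by_cases hp : Leaf B S p
  · by_cases hq : Leaf B S q
    · by_cases hxl : Leaf B S x
      · right
        exact ⟨p, q, x, hp, hq, hxl, h.2.2.1, ne_of_mem_erase h.2.1, ne_of_mem_erase h.1⟩
      · left
        unfold Leaf at hxl
        push Not at hxl
        obtain ⟨u, hu, v, hv, huv⟩ := hxl hx
        have hux := ne12 hB huv
        have hvx := ne23 hB huv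
        have key : ∀ w ∈ S, w ≠ x → w = p ∨ w = q ∨ B p w q := by
          intro w hw hwx
          by_cases h1 : w = p
          · exact Or.inl h1
          · by_cases h2 : w = q
            · exact Or.inr (Or.inl h2)
            · exact Or.inr (Or.inr (h.2.2.2 w (mem_erase.2 ⟨hwx, hw⟩) h1 h2))
        have hpx := in_line hB (key u hu hux) (key v hv hvx.symm) huv
        refine ⟨p, q, hp.1, hq.1, h.2.2.1, ?_⟩
        intro y hy h1 h2
        by_cases hyx : y = x
        · rw [hyx]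
          exact hpx
        · exact h.2.2.2 y (mem_erase.2 ⟨hyx, hy⟩) h1 h2
    · left
      exact ⟨p, x, line_step1 hB hx (line_swap hB h) hq⟩
  · left
    exact ⟨q, x, line_step1 hB hx h hp⟩

theorem hull {S : Finset V} (hcov : Cov B S) {p q r : V} (h : Tri B S p q r) {y : V}
    (hy : y ∈ S) : y = p ∨ y = q ∨ y = r ∨ B p y q ∨ B q y r ∨ B r y p := by
  obtain ⟨hp, hq, hr, h1, h2, h3⟩ := h
  by_cases e1 : y = p
  · exact Or.inl e1
  by_cases e2 : y = q
  · exact Or.inr (Or.inl e2)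
  by_cases e3 : y = r
  · exact Or.inr (Or.inr (Or.inl e3))
  have a1 := hp.2 q hq.1 r hr.1
  have a2 := hq.2 p hp.1 r hr.1
  have a3 := hr.2 p hp.1 q hq.1
  have b1 := hp.2 q hq.1 y hy
  have b2 := hp.2 r hr.1 y hy
  have b3 := hq.2 p hp.1 y hy
  have b4 := hq.2 r hr.1 y hy
  have b5 := hr.2 p hp.1 y hy
  have b6 := hr.2 q hq.1 y hy
  have s1 := hB.symm r y p
  have s2 := hB.symm p y r
  rcases four hB hcov hp.1 hq.1 hr.1 hy h1 h3 (Ne.symm e1) h2 (Ne.symm e2) (Ne.symm e3) with
    (k | k | k) | (k | k | k) | (k | k | k) | (k | k | k) <;> tauto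

theorem sub_claim {S : Finset V} (hcov : Cov B S) {p q r x a : V} (hx : x ∈ S)
    (h : Tri B (S.erase x) p q r) (ha : a ∈ S.erase x) (hax : B a p x) :
    B q p x ∨ B r p x := by
  have hh := h
  obtain ⟨hp, hq, hr, h1, h2, h3⟩ := h
  have hcov' := hcov.mono (erase_subset x S)
  rcases hull hB hcov' hh ha with e | e | e | e | e | e
  · exact absurd e (ne12 hB hax)
  · rw [e] at hax
    exact Or.inl hax
  · rw [e] at hax
    exact Or.inr hax
  · exact Or.inl (t2' hB (hB.symm _ _ _ e) hax)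
  · have a1 := hp.2 q hq.1 r hr.1
    have a2 := hq.2 p hp.1 r hr.1
    have a3 := hr.2 p hp.1 q hq.1
    have aq := hp.2 a ha q hq.1
    have ar := hp.2 a ha r hr.1
    rcases four hB hcov (mem_of_mem_erase hp.1) (mem_of_mem_erase hq.1) (mem_of_mem_erase hr.1) hx
      h1 h3 (ne_of_mem_erase hp.1) h2 (ne_of_mem_erase hq.1) (ne_of_mem_erase hr.1) with
      (k | k | k) | (k | k | k) | (k | k | k) | (k | k | k)
    · exact absurd k a2
    · exact absurd k a1
    · exact absurd k a3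
    · exact absurd (t1r hB hax k).2 aq
    · exact Or.inl k
    · exact absurd (hB.t2 _ _ _ _ hax k) aq
    · exact absurd (t1r hB hax k).2 ar
    · exact Or.inr k
    · exact absurd (hB.t2 _ _ _ _ hax k) ar
    · exact Or.inl (t1r hB (hB.t1 _ _ _ _ e k).1 hax).1
    · exact Or.inr (t1r hB (hB.t1 _ _ _ _ (hB.symm _ _ _ e) k).1 hax).1
    · rcases hB.geo _ _ _ _ e k with f | f | f
      · exact absurd f (ne_of_mem_erase ha)
      · exact Or.inl (t1r hB f hax).1
      · exact absurd (hB.t1 _ _ _ _ hax (hB.symm _ _ _ f)).1 aq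
  · exact Or.inr (t2' hB e hax)

/-- the new point is a leaf -/
theorem leaf_new {S : Finset V} (hcov : Cov B S) {p q r x : V} (hx : x ∈ S)
    (h : Tri B (S.erase x) p q r) (hqx : B q p x) : Leaf B S x := by
  have hh := h
  obtain ⟨hp, hq, hr, h1, h2, h3⟩ := h
  have hcov' := hcov.mono (erase_subset x S)
  refine ⟨hx, ?_⟩
  intro u hu v hv huv
  have hu' : u ∈ S.erase x := mem_erase.2 ⟨ne12 hB huv, hu⟩
  have hv' : v ∈ S.erase x := mem_erase.2 ⟨(ne23 hB huv).symm, hv⟩
  -- no point of the segment `[p, q]`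
  have k1 : ∀ u ∈ S.erase x, ∀ v ∈ S.erase x, B u x v → (u = p ∨ u = q ∨ B p u q) → False := by
    intro u hu v hv huv hc
    rcases hc with rfl | rfl | hc
    · exact hp.2 q hq.1 v hv (hB.t2 _ _ _ _ hqx huv)
    · exact hp.2 _ hq.1 v hv (hB.t1 _ _ _ _ hqx huv).1
    · exact hp.2 u hu v hv (hB.t1 _ _ _ _ (hB.t1 _ _ _ _ (hB.symm _ _ _ hc) hqx).2 huv).1
  have hvu := hB.symm _ _ _ huv
  have k2 : ∀ u v, B u x v → (u = r ∨ B q u r) → (v = r ∨ B q v r) → False := by
    intro u v huv hu hv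
    have h4 := in_line hB (p := q) (q := r) (Or.inr hu) (Or.inr hv) huv
    exact hp.2 q hq.1 r hr.1 (hB.t1 _ _ _ _ hqx h4).1
  have k3 : ∀ u v, B u x v → (u = r ∨ B r u p) → (v = r ∨ B r v p) → False := by
    intro u v huv hu hv
    have h4 := in_line hB (p := p) (q := r) (u := u) (v := v) (x := x)
      (Or.inr (hu.imp_right (hB.symm _ _ _))) (Or.inr (hv.imp_right (hB.symm _ _ _))) huv
    exact hp.2 q hq.1 r hr.1 (hB.t2 _ _ _ _ hqx h4)
  -- the mixed case
  have k4 : ∀ u ∈ S.erase x, ∀ v ∈ S.erase x, B u x v → B q u r → B r v p → False := by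
    intro u hu v hv huv hqu hrv
    have hvu := hB.symm _ _ _ huv
    have n1 : u ≠ p := by
      rintro rfl
      exact hp.2 q hq.1 r hr.1 hqu
    have n2 : u ≠ q := (ne12 hB hqu).symm
    have n3 : v ≠ p := ne23 hB hrv
    have n4 : v ≠ q := by
      rintro rfl
      exact hq.2 r hr.1 p hp.1 hrv
    have n5 := hB.ends _ _ _ huv
    rcases four hB hcov' hp.1 hq.1 hu hv h1 (Ne.symm n1) (Ne.symm n3) (Ne.symm n2) (Ne.symm n4)
      n5 with (k | k | k) | (k | k | k) | (k | k | k) | (k | k | k)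
    · exact hq.2 p hp.1 u hu k
    · exact hp.2 q hq.1 u hu k
    · exact k1 u hu v hv huv (Or.inr (Or.inr k))
    · exact hq.2 p hp.1 v hv k
    · exact hp.2 q hq.1 v hv k
    · exact k1 v hv u hu hvu (Or.inr (Or.inr k))
    · have h4 := (hB.t1 _ _ _ _ k (hB.symm _ _ _ hrv)).1
      exact k3 u v huv (Or.inr (hB.symm _ _ _ h4)) (Or.inr hrv)
    · exact hp.2 u hu v hv k
    · exact hp.2 q hq.1 v hv (t1r hB hqx (t1r hB k hvu).2).2
    · exact hp.2 q hq.1 v hv (hB.t1 _ _ _ _ hqx (t1r hB k huv).1).1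
    · exact hq.2 u hu v hv k
    · have h4 := (hB.t1 _ _ _ _ k hqu).1
      exact k2 u v huv (Or.inr hqu) (Or.inr h4)
  rcases hull hB hcov' hh hu' with e | e | e | e | e | e
  · exact k1 u hu' v hv' huv (Or.inl e)
  · exact k1 u hu' v hv' huv (Or.inr (Or.inl e))
  · rcases hull hB hcov' hh hv' with f | f | f | f | f | f
    · exact k1 v hv' u hu' hvu (Or.inl f)
    · exact k1 v hv' u hu' hvu (Or.inr (Or.inl f))
    · exact k2 u v huv (Or.inl e) (Or.inl f)
    · exact k1 v hv' u hu' hvu (Or.inr (Or.inr f))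
    · exact k2 u v huv (Or.inl e) (Or.inr f)
    · exact k3 u v huv (Or.inl e) (Or.inr f)
  · exact k1 u hu' v hv' huv (Or.inr (Or.inr e))
  · rcases hull hB hcov' hh hv' with f | f | f | f | f | f
    · exact k1 v hv' u hu' hvu (Or.inl f)
    · exact k1 v hv' u hu' hvu (Or.inr (Or.inl f))
    · exact k2 u v huv (Or.inr e) (Or.inl f)
    · exact k1 v hv' u hu' hvu (Or.inr (Or.inr f))
    · exact k2 u v huv (Or.inr e) (Or.inr f)
    · exact k4 u hu' v hv' huv e f
  · rcases hull hB hcov' hh hv' with f | f | f | f | f | f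
    · exact k1 v hv' u hu' hvu (Or.inl f)
    · exact k1 v hv' u hu' hvu (Or.inr (Or.inl f))
    · exact k3 u v huv (Or.inr e) (Or.inl f)
    · exact k1 v hv' u hu' hvu (Or.inr (Or.inr f))
    · exact k4 v hv' u hu' hvu f e
    · exact k3 u v huv (Or.inr e) (Or.inr f)

theorem tri_step2 {S : Finset V} (hcov : Cov B S) {p q r x : V} (hx : x ∈ S)
    (h : Tri B (S.erase x) p q r) (hqx : B q p x) : Tri B S x q r := by
  have hl := leaf_new hB hcov hx h hqx
  have hh := h
  obtain ⟨hp, hq, hr, h1, h2, h3⟩ := h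
  refine ⟨hl, ?_, ?_, (ne_of_mem_erase hq.1).symm, h2, (ne_of_mem_erase hr.1).symm⟩
  · by_contra hn
    obtain ⟨b, hb, hbx⟩ := not_leaf hB hq hn
    exact hq.2 b hb p hp.1 (t1r hB hbx hqx).2
  · by_contra hn
    obtain ⟨b, hb, hbx⟩ := not_leaf hB hr hn
    rcases sub_claim hB hcov (p := r) (q := p) (r := q) hx
      ⟨hr, hp, hq, h3.symm, h1, h2.symm⟩ hb hbx with e | e
    · exact hp.2 q hq.1 r hr.1 (t1r hB hqx e).2
    · rcases hB.geo _ _ _ _ hqx e with f | f | f
      · exact h3 f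
      · exact hp.2 q hq.1 r hr.1 f
      · exact hr.2 q hq.1 p hp.1 f

theorem tri_step1 {S : Finset V} (hcov : Cov B S) {p q r x : V} (hx : x ∈ S)
    (h : Tri B (S.erase x) p q r) (hn : ¬ Leaf B S p) : ∃ p q r, Tri B S p q r := by
  have hh := h
  obtain ⟨hp, hq, hr, h1, h2, h3⟩ := h
  obtain ⟨a, ha, hax⟩ := not_leaf hB hp hn
  rcases sub_claim hB hcov hx hh ha hax with e | e
  · exact ⟨_, _, _, tri_step2 hB hcov hx hh e⟩
  · exact ⟨_, _, _, tri_step2 hB hcov (p := p) (q := r) (r := q) hx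
      ⟨hp, hr, hq, h3, h2.symm, h1⟩ e⟩

theorem tri_step {S : Finset V} (hcov : Cov B S) {p q r x : V} (hx : x ∈ S)
    (h : Tri B (S.erase x) p q r) : ∃ p q r, Tri B S p q r := by
  have hh := h
  obtain ⟨hp, hq, hr, h1, h2, h3⟩ := h
  by_cases e1 : Leaf B S p
  · by_cases e2 : Leaf B S q
    · by_cases e3 : Leaf B S r
      · exact ⟨p, q, r, e1, e2, e3, h1, h2, h3⟩
      · exact tri_step1 hB hcov (p := r) (q := p) (r := q) hx ⟨hr, hp, hq, h3.symm, h1, h2.symm⟩ e3
    · exact tri_step1 hB hcov (p := q) (q := r) (r := p) hx ⟨hq, hr, hp, h2, h3.symm, h1.symm⟩ e2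
  · exact tri_step1 hB hcov hx hh e1

/-- **The hull.** A covering set is a geodesic segment or it has three leaves. -/
theorem segment_or_triangle : ∀ (n : ℕ) (S : Finset V), S.card = n + 2 → Cov B S →
    (∃ p q, Line B S p q) ∨ ∃ p q r, Tri B S p q r := by
  intro n
  induction n with
  | zero =>
    intro S hS _
    obtain ⟨p, q, hpq, rfl⟩ := card_eq_two.1 (by simpa using hS)
    left
    refine ⟨p, q, by simp, by simp, hpq, ?_⟩
    intro x hx h1 h2
    simp only [mem_insert, mem_singleton] at hx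
    rcases hx with rfl | rfl
    · exact absurd rfl h1
    · exact absurd rfl h2
  | succ n ih =>
    intro S hS hcov
    obtain ⟨x, hx⟩ : S.Nonempty := by
      rw [← card_pos]
      omega
    rcases ih (S.erase x) (by rw [card_erase_of_mem hx]; omega)
      (hcov.mono (erase_subset x S)) with ⟨p, q, h⟩ | ⟨p, q, r, h⟩
    · exact line_step hB hx h
    · exact Or.inr (tri_step hB hcov hx h)

end

end Pool.Agent.Helper64.Btw
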