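import Pool.Agent.Helper64.Btw.Cat

/-!
# Turán's construction in a metric space with the CAT(0) inequality
-/

set_option autoImplicit false
open Finset
open scoped Classical

namespace Pool.Agent.Helper64.Btw

/-- the distance from the gate of a side to the point at distance `t` from the gate of the next
side -/
noncomputable def ph (N t : ℝ) : ℝ := 10 * N + 3 / 4 * t + t ^ 2 / (40 * N)

section
variable {N : ℝ} (hN : 0 < N)
include hN

theorem ph_sub (s t : ℝ) : ph N t - ph N s = (t - s) * (3 / 4 + (t + s) / (40 * N)) := by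
  unfold ph
  field_simp
  ring

theorem ph_lip {s t : ℝ} (hs : 0 ≤ s) (hs' : s ≤ N) (ht : 0 ≤ t) (ht' : t ≤ N) (h : s < t) :
    3 / 4 * (t - s) ≤ ph N t - ph N s ∧ ph N t - ph N s ≤ 4 / 5 * (t - s) := by
  rw [ph_sub hN]
  have h1 : 0 ≤ (t + s) / (40 * N) := by positivity
  have h2 : (t + s) / (40 * N) ≤ 1 / 20 := by
    rw [div_le_iff₀ (by positivity)]
    linarith
  constructor <;> nlinarith

theorem ph_abs {s t : ℝ} (hs : 0 ≤ s) (hs' : s ≤ N) (ht : 0 ≤ t) (ht' : t ≤ N) :
    ph N t - ph N s ≤ 4 / 5 * |t - s| := by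
  rcases lt_trichotomy s t with h | h | h
  · rw [abs_of_pos (by linarith)]
    exact (ph_lip hN hs hs' ht ht' h).2
  · rw [h]
    simp
  · have := (ph_lip hN ht ht' hs hs' h).1
    have h3 := abs_nonneg (t - s)
    linarith

theorem ph_low {t : ℝ} (ht : 0 ≤ t) : 10 * N ≤ ph N t := by
  unfold ph
  have : 0 ≤ t ^ 2 / (40 * N) := by positivity
  linarith

theorem ph_high {t : ℝ} (ht : 0 ≤ t) (ht' : t ≤ N) : ph N t ≤ 11 * N := by
  unfold ph
  have : t ^ 2 / (40 * N) ≤ N / 40 := by
    rw [div_le_iff₀ (by positivity)]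
    nlinarith
  linarith

/-- a convexity property of `ph` -/
theorem ph_conv {e x y z : ℝ} (he : 0 ≤ e) (hx : 0 ≤ x) (hxy : x ≤ y) (hyz : y ≤ z) :
    (e + ph N y) ^ 2 * (z - x) ≤ (z - y) * (e + ph N x) ^ 2 + (y - x) * (e + ph N z) ^ 2 -
      (y - x) * (z - y) * (z - x) := by
  have key : (z - y) * (e + ph N x) ^ 2 + (y - x) * (e + ph N z) ^ 2 -
      (y - x) * (z - y) * (z - x) - (e + ph N y) ^ 2 * (z - x) =
      (z - x) * (y - x) * (z - y) * (1 / 16 + e / (20 * N) + 2 * (3 / 4) * (x + y + z) / (40 * N)
        + (x ^ 2 + y ^ 2 + z ^ 2 + x * y + x * z + y * z) / (40 * N) ^ 2) := by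
    unfold ph
    field_simp
    ring
  have h1 : 0 ≤ (z - x) * (y - x) * (z - y) :=
    mul_nonneg (mul_nonneg (by linarith) (by linarith)) (by linarith)
  have hy : 0 ≤ y := by linarith
  have hz : 0 ≤ z := by linarith
  have h2 : 0 ≤ 1 / 16 + e / (20 * N) + 2 * (3 / 4) * (x + y + z) / (40 * N)
        + (x ^ 2 + y ^ 2 + z ^ 2 + x * y + x * z + y * z) / (40 * N) ^ 2 := by positivity
  have h3 := mul_nonneg h1 h2
  linarith

/-- the CAT(0) inequality for a point on the third side -/
theorem ph_third {x y z p : ℝ} (hx : 0 ≤ x) (hx' : x ≤ N) (hy : 0 ≤ y) (hyz : y ≤ z)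
    (hz' : z ≤ N) (hp : 0 ≤ p) (hp' : p ≤ N) :
    (ph N y + p) ^ 2 * (ph N x + z) ≤ (z - y) * (ph N p + x) ^ 2 +
      (ph N x + y) * (ph N z + p) ^ 2 - (ph N x + y) * (z - y) * (ph N x + z) := by
  rcases eq_or_lt_of_le hyz with h | h
  · rw [h]
    ring_nf
    exact le_rfl
  have a1 := ph_low hN hx
  have a2 := ph_high hN hx hx'
  have a3 := ph_low hN hy
  have a4 := ph_high hN hy (by linarith)
  have a5 := ph_low hN hp
  have a6 := ph_high hN hp hp'
  obtain ⟨b1, b2⟩ := ph_lip hN hy (by linarith) (by linarith) hz' h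
  set H := ph N x + y with hH
  set G := ph N y + p with hG
  set K := ph N p + x with hK
  set D := ph N z - ph N y with hD
  set s := z - y with hs
  have e1 : ph N x + z = H + s := by rw [hH, hs]; ring
  have e2 : ph N z + p = G + D := by rw [hG, hD]; ring
  rw [e1, e2]
  have c1 : 10 * N ≤ H := by linarith
  have c2 : H ≤ 12 * N := by linarith
  have c3 : 10 * N ≤ G := by linarith
  have c4 : G ≤ 12 * N := by linarith
  have c5 : 10 * N ≤ K := by linarith
  have hs0 : 0 < s := by linarith
  have hsN : s ≤ N := by linarith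
  have hD0 : 0 ≤ D := by nlinarith
  -- the difference is at least `s (K² - G² - H² + (3/2) G H - s H)`
  have f1 : 0 ≤ K ^ 2 - G ^ 2 - H ^ 2 + 3 / 2 * (G * H) - s * H := by
    have g1 : (10 * N) ^ 2 ≤ K ^ 2 := by nlinarith
    have g2 : (G - H) ^ 2 ≤ (2 * N) ^ 2 := by
      apply sq_le_sq'
      · linarith
      · linarith
    have g3 : G * H ≤ (12 * N) * (12 * N) := by nlinarith
    have g4 : s * H ≤ N * (12 * N) := by nlinarith
    nlinarith
  have f2 : 3 / 4 * s * (G * H) ≤ D * (G * H) := by
    apply mul_le_mul_of_nonneg_right b1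
    exact mul_nonneg (by linarith) (by linarith)
  have f3 : 0 ≤ H * D ^ 2 := mul_nonneg (by linarith) (sq_nonneg D)
  have f4 := mul_nonneg hs0.le f1
  nlinarith [f2, f3, f4]

/-- the CAT(0) inequality for a point on the side of the first point -/
theorem ph_first {x y z p : ℝ} (hx : 0 ≤ x) (hx' : x ≤ N) (hyz : y ≤ z)
    (hp : 0 ≤ p) (hp' : p ≤ N) :
    (ph N p + y) ^ 2 * (ph N x + z) ≤ (z - y) * |p - x| ^ 2 +
      (ph N x + y) * (ph N p + z) ^ 2 - (ph N x + y) * (z - y) * (ph N x + z) := by
  have h1 : (ph N p - ph N x) ^ 2 ≤ |p - x| ^ 2 := by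
    have k1 := ph_abs hN hx hx' hp hp'
    have k2 := ph_abs hN hp hp' hx hx'
    have k3 := abs_nonneg (p - x)
    have k4 : |x - p| = |p - x| := abs_sub_comm _ _
    rw [k4] at k2
    apply sq_le_sq'
    · linarith
    · linarith
  have h2 := mul_le_mul_of_nonneg_left h1 (sub_nonneg.2 hyz)
  nlinarith [h2]

end

/-- the class of a point -/
def cl {n : ℕ} (x : Fin n) : ℕ := (x : ℕ) % 3

/-- the position of a point on its side -/
noncomputable def po {n : ℕ} (x : Fin n) : ℝ := ((x : ℕ) / 3 : ℕ)

/-- the metric -/
noncomputable def td (n : ℕ) (x y : Fin n) : ℝ :=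
  if cl x = cl y then |po x - po y|
  else if cl y = (cl x + 1) % 3 then ph (n + 1) (po x) + po y
  else ph (n + 1) (po y) + po x

theorem cl_lt {n : ℕ} (x : Fin n) : cl x < 3 := Nat.mod_lt _ (by norm_num)

theorem po_nonneg {n : ℕ} (x : Fin n) : 0 ≤ po x := Nat.cast_nonneg _

theorem po_le {n : ℕ} (x : Fin n) : po x ≤ (n + 1 : ℝ) := by
  unfold po
  have h : (x : ℕ) / 3 ≤ n + 1 := by
    have := x.isLt
    omega
  exact_mod_cast h

theorem eq_of {n : ℕ} {x y : Fin n} (h1 : cl x = cl y) (h2 : po x = po y) : x = y := by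
  unfold cl at h1
  unfold po at h2
  have h3 : (x : ℕ) / 3 = (y : ℕ) / 3 := by exact_mod_cast h2
  apply Fin.ext
  omega

theorem td_same {n : ℕ} {x y : Fin n} (h : cl x = cl y) : td n x y = |po x - po y| := by
  unfold td
  rw [if_pos h]

theorem td_next {n : ℕ} {x y : Fin n} (h : cl y = (cl x + 1) % 3) :
    td n x y = ph (n + 1) (po x) + po y := by
  unfold td
  have := cl_lt x
  rw [if_neg (by omega), if_pos h]

theorem td_prev {n : ℕ} {x y : Fin n} (h : cl x = (cl y + 1) % 3) :
    td n x y = ph (n + 1) (po y) + po x := by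
  unfold td
  have := cl_lt x
  have := cl_lt y
  rw [if_neg (by omega), if_neg (by omega)]

theorem cases3 {n : ℕ} (x y : Fin n) :
    cl x = cl y ∨ cl y = (cl x + 1) % 3 ∨ cl x = (cl y + 1) % 3 := by
  have := cl_lt x
  have := cl_lt y
  omega

theorem td_symm {n : ℕ} (x y : Fin n) : td n x y = td n y x := by
  rcases cases3 x y with h | h | h
  · rw [td_same h, td_same h.symm, abs_sub_comm]
  · rw [td_next h, td_prev h]
  · rw [td_prev h, td_next h]

theorem td_low {n : ℕ} {x y : Fin n} (h : cl x ≠ cl y) : 10 * ((n : ℝ) + 1) ≤ td n x y := by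
  have hN : (0 : ℝ) < (n : ℝ) + 1 := by positivity
  rcases cases3 x y with h' | h' | h'
  · exact absurd h' h
  · rw [td_next h']
    have := ph_low hN (po_nonneg x)
    have := po_nonneg y
    linarith
  · rw [td_prev h']
    have := ph_low hN (po_nonneg y)
    have := po_nonneg x
    linarith

theorem td_high {n : ℕ} (x y : Fin n) : td n x y ≤ 12 * ((n : ℝ) + 1) := by
  have hN : (0 : ℝ) < (n : ℝ) + 1 := by positivity
  have hx := po_nonneg x
  have hx' := po_le x
  have hy := po_nonneg y
  have hy' := po_le y
  rcases cases3 x y with h' | h' | h'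
  · rw [td_same h']
    rw [abs_le]
    constructor <;> linarith
  · rw [td_next h']
    have := ph_high hN hx hx'
    linarith
  · rw [td_prev h']
    have := ph_high hN hy hy'
    linarith

theorem td_same_le {n : ℕ} {x y : Fin n} (h : cl x = cl y) : td n x y ≤ (n : ℝ) + 1 := by
  rw [td_same h, abs_le]
  have hx := po_nonneg x
  have hx' := po_le x
  have hy := po_nonneg y
  have hy' := po_le y
  constructor <;> linarith

theorem td_nonneg {n : ℕ} (x y : Fin n) : 0 ≤ td n x y := by
  by_cases h : cl x = cl y
  · rw [td_same h]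
    exact abs_nonneg _
  · have := td_low h
    have : (0 : ℝ) < (n : ℝ) + 1 := by positivity
    linarith

/-- comparison of the distances of two points of one side to a point of another side -/
theorem td_shift {n : ℕ} {x y z : Fin n} (h : cl x = cl y) (hz : cl z ≠ cl x) :
    td n x z ≤ td n x y + td n y z := by
  have hN : (0 : ℝ) < (n : ℝ) + 1 := by positivity
  have hx := po_nonneg x
  have hx' := po_le x
  have hy := po_nonneg y
  have hy' := po_le y
  rw [td_same h]
  rcases cases3 x z with h' | h' | h'
  · exact absurd h'.symm hz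
  · rw [td_next h', td_next (x := y) (y := z) (by rw [← h]; exact h')]
    have := ph_abs hN hy hy' hx hx'
    have := abs_nonneg (po x - po y)
    linarith
  · rw [td_prev h', td_prev (x := y) (y := z) (by rw [← h]; exact h')]
    have := le_abs_self (po x - po y)
    linarith

theorem td_metric (n : ℕ) : IsMetric (td n) := by
  have hN : (0 : ℝ) < (n : ℝ) + 1 := by positivity
  refine ⟨?_, td_symm, ?_⟩
  · intro x y
    constructor
    · intro h
      by_cases hc : cl x = cl y
      · rw [td_same hc, abs_eq_zero, sub_eq_zero] at h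
        exact eq_of hc h
      · have := td_low hc
        linarith
    · rintro rfl
      rw [td_same rfl]
      simp
  · intro x y z
    by_cases h1 : cl x = cl y
    · by_cases h2 : cl z = cl x
      · rw [td_same h2.symm, td_same h1, td_same (h1.symm.trans h2.symm)]
        exact abs_sub_le _ _ _
      · exact td_shift h1 h2
    · by_cases h2 : cl y = cl z
      · have := td_shift (x := z) (y := y) (z := x) h2.symm (by rw [← h2]; exact h1)
        rw [td_symm x z, td_symm x y, td_symm y z]
        linarith
      · have a := td_low h1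
        have b := td_low h2
        have c := td_high x z
        linarith

/-- the collinear triples of the construction -/
theorem td_mid {n : ℕ} {x y z : Fin n} (h : Mid (td n) x y z) :
    (cl x = cl y ∧ cl y = cl z ∧ (po x < po y ∧ po y < po z ∨ po z < po y ∧ po y < po x)) ∨
    (cl y = (cl x + 1) % 3 ∧ cl y = cl z ∧ po y < po z) ∨
    (cl y = (cl z + 1) % 3 ∧ cl y = cl x ∧ po y < po x) := by
  have hN : (0 : ℝ) < (n : ℝ) + 1 := by positivity
  obtain ⟨n1, n2, h⟩ := h
  have hx := po_nonneg x
  have hx' := po_le x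
  have hy := po_nonneg y
  have hy' := po_le y
  have hz := po_nonneg z
  have hz' := po_le z
  by_cases h1 : cl x = cl y
  · have hne : po x ≠ po y := fun k => n1 (eq_of h1 k)
    by_cases h2 : cl y = cl z
    · left
      refine ⟨h1, h2, ?_⟩
      have hne2 : po y ≠ po z := fun k => n2 (eq_of h2 k)
      rw [td_same h1, td_same h2, td_same (h1.trans h2)] at h
      rcases lt_or_gt_of_ne hne with a | a <;> rcases lt_or_gt_of_ne hne2 with b | b
      · exact Or.inl ⟨a, b⟩
      · exfalso
        rw [abs_of_neg (by linarith : po x - po y < 0),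
          abs_of_pos (by linarith : 0 < po y - po z)] at h
        rcases abs_cases (po x - po z) with ⟨c, _⟩ | ⟨c, _⟩ <;> linarith
      · exfalso
        rw [abs_of_pos (by linarith : 0 < po x - po y),
          abs_of_neg (by linarith : po y - po z < 0)] at h
        rcases abs_cases (po x - po z) with ⟨c, _⟩ | ⟨c, _⟩ <;> linarith
      · exact Or.inr ⟨b, a⟩
    · rcases cases3 y z with h3 | h3 | h3
      · exact absurd h3 h2
      · exfalso
        rw [td_same h1, td_next (x := x) (y := z) (by rw [h1]; exact h3), td_next h3] at h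
        have k := ph_abs hN hy hy' hx hx'
        have : 0 < |po x - po y| := abs_pos.2 (sub_ne_zero.2 hne)
        linarith
      · right
        right
        refine ⟨h3, h1.symm, ?_⟩
        rw [td_same h1, td_prev (x := x) (y := z) (by rw [h1]; exact h3), td_prev h3] at h
        by_contra hcon
        push Not at hcon
        have h4 : po x < po y := lt_of_le_of_ne hcon hne
        rw [abs_of_neg (by linarith : po x - po y < 0)] at h
        linarith
  · by_cases h2 : cl y = cl z
    · have hne2 : po y ≠ po z := fun k => n2 (eq_of h2 k)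
      rcases cases3 x y with h3 | h3 | h3
      · exact absurd h3 h1
      · right
        left
        refine ⟨h3, h2, ?_⟩
        rw [td_same h2, td_next (x := x) (y := z) (by rw [← h2]; exact h3), td_next h3] at h
        by_contra hcon
        push Not at hcon
        have h4 : po z < po y := lt_of_le_of_ne hcon hne2.symm
        rw [abs_of_pos (by linarith : 0 < po y - po z)] at h
        linarith
      · exfalso
        rw [td_same h2, td_prev (x := x) (y := z) (by rw [← h2]; exact h3), td_prev h3] at h
        have k := ph_abs hN hy hy' hz hz'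
        have : 0 < |po y - po z| := abs_pos.2 (sub_ne_zero.2 hne2)
        have e : |po z - po y| = |po y - po z| := abs_sub_comm _ _
        linarith
    · exfalso
      have a := td_low h1
      have b := td_low h2
      have c := td_high x z
      linarith

/-- the CAT(0) inequality for `x` on one side and `y, z` on the next side -/
theorem td_cat_mixed {n : ℕ} (p x y z : Fin n) (h1 : cl y = (cl x + 1) % 3) (h2 : cl y = cl z)
    (h3 : po y ≤ po z) : td n p y ^ 2 * td n x z ≤ td n y z * td n p x ^ 2 +
      td n x y * td n p z ^ 2 - td n x y * td n y z * td n x z := by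
  have hN : (0 : ℝ) < (n : ℝ) + 1 := by positivity
  have hx := po_nonneg x
  have hx' := po_le x
  have hy := po_nonneg y
  have hy' := po_le y
  have hz := po_nonneg z
  have hz' := po_le z
  have hp := po_nonneg p
  have hp' := po_le p
  have exy := td_next h1
  have exz : td n x z = ph (n + 1) (po x) + po z := td_next (by rw [← h2]; exact h1)
  have eyz : td n y z = po z - po y := by
    rw [td_same h2, abs_sub_comm, abs_of_nonneg (by linarith)]
  rw [exy, exz, eyz]
  have hcx := cl_lt x
  rcases cases3 p x with h | h | h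
  · -- `p` on the side of `x`
    rw [td_same h, td_next (x := p) (y := y) (by rw [h]; exact h1),
      td_next (x := p) (y := z) (by rw [h, ← h2]; exact h1)]
    exact ph_first hN hx hx' h3 hp hp'
  · -- `x` on the side after `p`: the third side
    have e1 : cl p = (cl y + 1) % 3 := by
      have := cl_lt p
      omega
    rw [td_next h, td_prev (x := p) (y := y) e1, td_prev (x := p) (y := z) (by rw [← h2]; exact e1)]
    exact ph_third hN hx hx' hy h3 hz' hp hp'
  · -- `p` on the side of `y`
    have e1 : cl p = cl y := by rw [h, h1]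
    rw [td_prev h, td_same e1, td_same (e1.trans h2)]
    simp only [sq_abs]
    nlinarith [sq_nonneg (po p)]

theorem td_cat_same {n : ℕ} (p x y z : Fin n) (h1 : cl x = cl y) (h2 : cl y = cl z)
    (h3 : po x ≤ po y) (h4 : po y ≤ po z) : td n p y ^ 2 * td n x z ≤ td n y z * td n p x ^ 2 +
      td n x y * td n p z ^ 2 - td n x y * td n y z * td n x z := by
  have hN : (0 : ℝ) < (n : ℝ) + 1 := by positivity
  have hx := po_nonneg x
  have hp := po_nonneg p
  have exy : td n x y = po y - po x := by
    rw [td_same h1, abs_sub_comm, abs_of_nonneg (by linarith)]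
  have eyz : td n y z = po z - po y := by
    rw [td_same h2, abs_sub_comm, abs_of_nonneg (by linarith)]
  have exz : td n x z = po z - po x := by
    rw [td_same (h1.trans h2), abs_sub_comm, abs_of_nonneg (by linarith)]
  rw [exy, exz, eyz]
  rcases cases3 p x with h | h | h
  · rw [td_same h, td_same (h.trans h1), td_same (h.trans (h1.trans h2))]
    simp only [sq_abs]
    nlinarith [sq_nonneg (po p)]
  · rw [td_next h, td_next (x := p) (y := y) (by rw [← h1]; exact h),
      td_next (x := p) (y := z) (by rw [← h2, ← h1]; exact h)]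
    nlinarith [sq_nonneg (po p)]
  · rw [td_prev h, td_prev (x := p) (y := y) (by rw [← h1]; exact h),
      td_prev (x := p) (y := z) (by rw [← h2, ← h1]; exact h)]
    have := ph_conv hN hp hx h3 h4
    rw [add_comm (ph _ (po x)), add_comm (ph _ (po y)), add_comm (ph _ (po z))]
    linarith

theorem cat_swap {n : ℕ} {p x y z : Fin n}
    (h : td n p y ^ 2 * td n z x ≤ td n y x * td n p z ^ 2 +
      td n z y * td n p x ^ 2 - td n z y * td n y x * td n z x) :
    td n p y ^ 2 * td n x z ≤ td n y z * td n p x ^ 2 +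
      td n x y * td n p z ^ 2 - td n x y * td n y z * td n x z := by
  rw [td_symm z x, td_symm y x, td_symm z y] at h
  linarith

theorem td_cat (n : ℕ) : Cat (td n) := by
  intro p x y z h
  have hm := td_metric n
  by_cases hxy : x = y
  · subst hxy
    rw [(hm.zero x x).2 rfl]
    apply le_of_eq
    ring
  by_cases hyz : y = z
  · subst hyz
    rw [(hm.zero y y).2 rfl]
    apply le_of_eq
    ring
  rcases td_mid ⟨hxy, hyz, h⟩ with ⟨h1, h2, ⟨h3, h4⟩ | ⟨h3, h4⟩⟩ | ⟨h1, h2, h3⟩ | ⟨h1, h2, h3⟩
  · exact td_cat_same p x y z h1 h2 h3.le h4.le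
  · exact cat_swap (td_cat_same p z y x h2.symm h1.symm h3.le h4.le)
  · exact td_cat_mixed p x y z h1 h2 h3.le
  · exact cat_swap (td_cat_mixed p z y x h1 h2 h3.le)

end Pool.Agent.Helper64.Btw
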